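import Pool.Agent.H566R4.Stmts

/-!
H566-BOG, TaskFilt.
-/

set_option autoImplicit false

namespace Pool.Agent.H544R3.Bog

open Polynomial Module Pool.Agent.H566R4

section

variable (k : Type) [Field k]

/-- polynomials of degree at most `n` -/
noncomputable abbrev RR (n : ℕ) : Submodule k (MvPolynomial (Fin 2) k) :=
  MvPolynomial.restrictTotalDegree (Fin 2) k n

variable {k}

theorem coeff_top (n i : ℕ) (f : MvPolynomial (Fin 2) k) :
    (top k n f).coeff i =
      if i ≤ n then f.coeff (Finsupp.single 0 i + Finsupp.single 1 (n - i)) else 0 := by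
  have h : top k n f = ∑ i ∈ Finset.range (n + 1),
    Polynomial.monomial i (f.coeff (Finsupp.single 0 i + Finsupp.single 1 (n - i))) := rfl
  rw [h, Polynomial.finset_sum_coeff]
  simp only [Polynomial.coeff_monomial]
  rw [Finset.sum_ite_eq']
  simp only [Finset.mem_range, Nat.lt_succ_iff]

theorem td_le (f : MvPolynomial (Fin 2) k) (n : ℕ) :
    f ∈ RR k n ↔ ∀ m : Fin 2 →₀ ℕ, f.coeff m ≠ 0 → m 0 + m 1 ≤ n := by
  rw [MvPolynomial.mem_restrictTotalDegree]
  unfold MvPolynomial.totalDegree
  rw [Finset.sup_le_iff]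
  constructor
  · intro h m hm
    have := h m (MvPolynomial.mem_support_iff.2 hm)
    rwa [Finsupp.sum_fintype _ _ (fun _ => rfl), Fin.sum_univ_two] at this
  · intro h m hm
    rw [Finsupp.sum_fintype _ _ (fun _ => rfl), Fin.sum_univ_two]
    exact h m (MvPolynomial.mem_support_iff.1 hm)

theorem eta (m : Fin 2 →₀ ℕ) (n : ℕ) (h : m 0 + m 1 = n) :
    (Finsupp.single 0 (m 0) + Finsupp.single 1 (n - m 0) : Fin 2 →₀ ℕ) = m := by
  ext i
  fin_cases i
  · simp
  · simp; omega

theorem ker_top (n : ℕ) (f : MvPolynomial (Fin 2) k) (hf : f ∈ RR k n) (h0 : top k n f = 0)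
    (m : Fin 2 →₀ ℕ) (hm : f.coeff m ≠ 0) : m 0 + m 1 < n := by
  have h1 := (td_le f n).1 hf m hm
  by_contra hcon
  have h2 : m 0 + m 1 = n := by omega
  apply hm
  have h3 := coeff_top n (m 0) f
  rw [h0, if_pos (by omega), eta m n h2] at h3
  simpa using h3.symm

theorem top_low (n : ℕ) (f : MvPolynomial (Fin 2) k) (hf : f ∈ RR k n) :
    top k (n + 1) f = 0 := by
  ext i
  rw [coeff_top]
  split_ifs with hi
  · by_contra hcon
    have h1 := (td_le f n).1 hf _ hcon
    simp at h1
    omega
  · simp

theorem rn {V W : Type} [AddCommGroup V] [Module k V] [AddCommGroup W] [Module k W]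
    (S : Submodule k V) [FiniteDimensional k S] (f : V →ₗ[k] W) :
    finrank k (S.map f) + finrank k ↥(S ⊓ LinearMap.ker f) = finrank k S := by
  have h := LinearMap.finrank_range_add_finrank_ker (f.domRestrict S)
  rw [LinearMap.range_domRestrict, LinearMap.ker_domRestrict] at h
  rw [← h, ← Submodule.finrank_map_subtype_eq S ((LinearMap.ker f).comap S.subtype),
    Submodule.map_comap_subtype]

theorem dimM (Z : Submodule k (MvPolynomial (Fin 2) k)) (n : ℕ) :
    finrank k ↥(RR k n ⊓ Z) =
      ∑ i ∈ Finset.range (n + 1), finrank k ↥((RR k i ⊓ Z).map (top k i)) := by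
  induction n with
  | zero =>
    have hfd : FiniteDimensional k ↥(RR k 0 ⊓ Z) :=
      Submodule.finiteDimensional_of_le (inf_le_left : RR k 0 ⊓ Z ≤ RR k 0)
    have h := rn (RR k 0 ⊓ Z) (top k 0)
    have h1 : (RR k 0 ⊓ Z) ⊓ LinearMap.ker (top k 0) = ⊥ := by
      rw [eq_bot_iff]
      rintro f ⟨⟨hf1, _⟩, hf2⟩
      rw [Submodule.mem_bot]
      by_contra hne
      obtain ⟨m, hm⟩ := MvPolynomial.ne_zero_iff.1 hne
      have := ker_top 0 f hf1 hf2 m hm
      omega
    rw [h1, finrank_bot] at h
    simpa using h.symm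
  | succ n ih =>
    have hfd : FiniteDimensional k ↥(RR k (n + 1) ⊓ Z) :=
      Submodule.finiteDimensional_of_le (inf_le_left : RR k (n + 1) ⊓ Z ≤ RR k (n + 1))
    have h := rn (RR k (n + 1) ⊓ Z) (top k (n + 1))
    have h1 : (RR k (n + 1) ⊓ Z) ⊓ LinearMap.ker (top k (n + 1)) = RR k n ⊓ Z := by
      ext f
      constructor
      · rintro ⟨⟨hf1, hf3⟩, hf2⟩
        refine ⟨?_, hf3⟩
        rw [SetLike.mem_coe, td_le]
        intro m hm
        have := ker_top (n + 1) f hf1 hf2 m hm
        omega
      · rintro ⟨hf1, hf2⟩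
        refine ⟨⟨?_, hf2⟩, ?_⟩
        · rw [SetLike.mem_coe, td_le]
          intro m hm
          have := (td_le f n).1 hf1 m hm
          omega
        · exact top_low n f hf1
    rw [h1, ih] at h
    rw [Finset.sum_range_succ _ (n + 1)]
    omega

theorem map_le (S : Submodule k (MvPolynomial (Fin 2) k)) (n : ℕ) :
    S.map (top k n) ≤ degreeLT k (n + 1) := by
  rintro _ ⟨f, _, rfl⟩
  rw [Polynomial.mem_degreeLT, Polynomial.degree_lt_iff_coeff_zero]
  intro i hi
  rw [coeff_top, if_neg (by omega)]

theorem finrank_degreeLT (n : ℕ) : finrank k ↥(degreeLT k n) = n := by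
  rw [(Polynomial.degreeLTEquiv k n).finrank_eq, Module.finrank_fin_fun]

instance fdDegreeLT (n : ℕ) : FiniteDimensional k ↥(degreeLT k n) :=
  Module.Finite.equiv (Polynomial.degreeLTEquiv k n).symm

/-- a polynomial with given top part -/
noncomputable def sec (n : ℕ) (p : k[X]) : MvPolynomial (Fin 2) k :=
  ∑ i ∈ Finset.range (n + 1),
    MvPolynomial.monomial (Finsupp.single 0 i + Finsupp.single 1 (n - i)) (p.coeff i)

theorem single_inj (n i j : ℕ) (h : (Finsupp.single 0 i + Finsupp.single 1 (n - i) : Fin 2 →₀ ℕ) =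
    Finsupp.single 0 j + Finsupp.single 1 (n - j)) : i = j := by
  have := DFunLike.congr_fun h 0
  simpa using this

theorem top_sec (n : ℕ) (p : k[X]) (hp : p ∈ degreeLT k (n + 1)) : top k n (sec n p) = p := by
  ext j
  rw [coeff_top]
  split_ifs with hj
  · unfold sec
    rw [MvPolynomial.coeff_sum]
    simp only [MvPolynomial.coeff_monomial]
    rw [Finset.sum_eq_single j]
    · rw [if_pos rfl]
    · intro i _ hi
      rw [if_neg]
      intro h
      exact hi (single_inj n i j h)
    · intro h
      exact absurd (Finset.mem_range.2 (by omega)) h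
  · rw [Polynomial.mem_degreeLT, Polynomial.degree_lt_iff_coeff_zero] at hp
    exact (hp j (by omega)).symm

theorem sec_mem (n : ℕ) (p : k[X]) : sec n p ∈ RR k n := by
  unfold sec
  apply Submodule.sum_mem
  intro i hi
  have hi' := Finset.mem_range.1 hi
  rw [td_le]
  intro m hm
  rw [MvPolynomial.coeff_monomial] at hm
  have h : (Finsupp.single 0 i + Finsupp.single 1 (n - i) : Fin 2 →₀ ℕ) = m := by
    by_contra hcon
    exact hm (if_neg hcon)
  rw [← h]
  simp
  omega

theorem map_RR (n : ℕ) : (RR k n ⊓ ⊤).map (top k n) = degreeLT k (n + 1) := by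
  apply le_antisymm (map_le _ n)
  intro p hp
  exact ⟨sec n p, ⟨sec_mem n p, trivial⟩, top_sec n p hp⟩

theorem top_mul_y (n : ℕ) (f : MvPolynomial (Fin 2) k) :
    top k (n + 1) (f * MvPolynomial.X 1) = top k n f := by
  ext i
  rw [coeff_top, coeff_top, MvPolynomial.coeff_mul_X']
  by_cases hi : i ≤ n
  · rw [if_pos (by omega), if_pos hi, if_pos]
    · congr 1
      ext j
      fin_cases j
      · simp
      · simp; omega
    · rw [Finsupp.mem_support_iff]
      simp
      omega
  · rw [if_neg hi]
    by_cases hi2 : i ≤ n + 1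
    · rw [if_pos hi2, if_neg]
      rw [Finsupp.mem_support_iff]
      simp
      omega
    · rw [if_neg hi2]

theorem top_mul_x (n : ℕ) (f : MvPolynomial (Fin 2) k) :
    top k (n + 1) (f * MvPolynomial.X 0) = X * top k n f := by
  ext i
  rw [coeff_top, MvPolynomial.coeff_mul_X']
  rcases i with _ | i
  · rw [Polynomial.coeff_X_mul_zero, if_pos (by omega), if_neg]
    rw [Finsupp.mem_support_iff]
    simp
  · rw [Polynomial.coeff_X_mul, coeff_top]
    by_cases hi : i ≤ n
    · rw [if_pos (by omega), if_pos hi, if_pos]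
      · congr 1
        ext j
        fin_cases j
        · simp
        · simp
      · rw [Finsupp.mem_support_iff]
        simp
    · rw [if_neg (by omega), if_neg hi]

/-- evaluation on `A` -/
noncomputable def ev (A : Finset (k × k)) : MvPolynomial (Fin 2) k →ₗ[k] (A → k) where
  toFun f a := MvPolynomial.eval ![a.1.1, a.1.2] f
  map_add' f g := by ext a; simp
  map_smul' c f := by ext a; simp [MvPolynomial.smul_eval]

theorem mem_ker_ev (A : Finset (k × k)) (f : MvPolynomial (Fin 2) k) :
    f ∈ LinearMap.ker (ev A) ↔ ∀ a ∈ A, MvPolynomial.eval ![a.1, a.2] f = 0 := by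
  rw [LinearMap.mem_ker]
  constructor
  · intro h a ha
    exact congrFun h ⟨a, ha⟩
  · intro h
    ext a
    exact h a.1 a.2

theorem surj [Fintype k] (A : Finset (k × k)) : ∃ N₀ : ℕ, ∀ N ≥ N₀, (RR k N).map (ev A) = ⊤ := by
  classical
  refine ⟨A.sup (fun a => (MvPolynomial.indicator ![a.1, a.2] : MvPolynomial (Fin 2) k).totalDegree),
    fun N hN => ?_⟩
  rw [eq_top_iff]
  intro g _
  refine ⟨∑ a : A, g a • (MvPolynomial.indicator ![a.1.1, a.1.2] : MvPolynomial (Fin 2) k), ?_, ?_⟩
  · apply Submodule.sum_mem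
    intro a _
    apply Submodule.smul_mem
    rw [MvPolynomial.mem_restrictTotalDegree]
    exact (Finset.le_sup (f := fun a : k × k =>
      (MvPolynomial.indicator ![a.1, a.2] : MvPolynomial (Fin 2) k).totalDegree) a.2).trans hN
  · ext b
    rw [map_sum, Finset.sum_apply, Finset.sum_eq_single b]
    · have h1 : ev A (MvPolynomial.indicator ![b.1.1, b.1.2]) b = 1 :=
        MvPolynomial.eval_indicator_apply_eq_one _
      rw [map_smul, Pi.smul_apply, h1, smul_eq_mul, mul_one]
    · intro a _ hab
      have h1 : ev A (MvPolynomial.indicator ![a.1.1, a.1.2]) b = 0 := by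
        apply MvPolynomial.eval_indicator_apply_eq_zero
        intro h
        apply hab
        have h2 := congrFun h 0
        have h3 := congrFun h 1
        simp at h2 h3
        exact (Subtype.ext (Prod.ext h2 h3)).symm
      rw [map_smul, Pi.smul_apply, h1, smul_zero]
    · intro h
      exact absurd (Finset.mem_univ b) h

end

theorem taskFilt : TaskFilt := by
  intro k _ _ A d W hd hW1 hW2
  have hWR : W ≤ RR k d ⊓ LinearMap.ker (ev A) := by
    intro f hf
    refine ⟨?_, ?_⟩
    · exact (MvPolynomial.mem_restrictTotalDegree _ _ _).2 (hW1 f hf)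
    · exact (mem_ker_ev A f).2 (hW2 f hf)
  refine ⟨fun n => (RR k n ⊓ LinearMap.ker (ev A)).map (top k n), fun n => map_le _ n, ?_, ?_, ?_,
    ?_, ?_, ?_, Submodule.map_mono hWR⟩
  · rintro n _ ⟨f, ⟨hf1, hf2⟩, rfl⟩
    refine ⟨f * MvPolynomial.X 1, ⟨?_, ?_⟩, top_mul_y n f⟩
    · rw [SetLike.mem_coe, MvPolynomial.mem_restrictTotalDegree]
      have h1 := (MvPolynomial.mem_restrictTotalDegree _ _ _).1 hf1
      refine (MvPolynomial.totalDegree_mul _ _).trans ?_
      have h2 : (MvPolynomial.X 1 : MvPolynomial (Fin 2) k).totalDegree = 1 :=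
        MvPolynomial.totalDegree_X 1
      omega
    · rw [SetLike.mem_coe, mem_ker_ev] at hf2 ⊢
      intro a ha
      rw [map_mul, hf2 a ha, zero_mul]
  · rintro n _ ⟨_, ⟨f, ⟨hf1, hf2⟩, rfl⟩, rfl⟩
    refine ⟨f * MvPolynomial.X 0, ⟨?_, ?_⟩, ?_⟩
    · rw [SetLike.mem_coe, MvPolynomial.mem_restrictTotalDegree]
      have h1 := (MvPolynomial.mem_restrictTotalDegree _ _ _).1 hf1
      refine (MvPolynomial.totalDegree_mul _ _).trans ?_
      have h2 : (MvPolynomial.X 0 : MvPolynomial (Fin 2) k).totalDegree = 1 :=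
        MvPolynomial.totalDegree_X 0
      omega
    · rw [SetLike.mem_coe, mem_ker_ev] at hf2 ⊢
      intro a ha
      rw [map_mul, hf2 a ha, zero_mul]
    · exact top_mul_x n f
  · -- `1 ∈ U q`
    have hq : 1 < Fintype.card k := Fintype.one_lt_card
    refine ⟨MvPolynomial.X 1 ^ Fintype.card k - MvPolynomial.X 1, ⟨?_, ?_⟩, ?_⟩
    · apply Submodule.sub_mem
      · rw [MvPolynomial.mem_restrictTotalDegree, MvPolynomial.totalDegree_X_pow]
      · rw [MvPolynomial.mem_restrictTotalDegree, MvPolynomial.totalDegree_X]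
        exact hq.le
    · rw [SetLike.mem_coe, mem_ker_ev]
      intro a _
      rw [map_sub, map_pow, MvPolynomial.eval_X, FiniteField.pow_card, sub_self]
    · ext i
      rw [coeff_top, MvPolynomial.coeff_sub, MvPolynomial.coeff_X_pow, MvPolynomial.coeff_X',
        Polynomial.coeff_one]
      by_cases hi : i = 0
      · subst hi
        rw [if_pos (Nat.zero_le _), if_pos (by simp), if_neg, if_pos rfl, sub_zero]
        intro h
        have := DFunLike.congr_fun h 1
        simp at this
        omega
      · rw [if_neg (c := i = 0) hi]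
        split_ifs with h1 h2 h3 h4
        · have := DFunLike.congr_fun h2 0
          simp at this
          omega
        · have := DFunLike.congr_fun h2 0
          simp at this
          omega
        · have := DFunLike.congr_fun h4 0
          simp at this
          omega
        · simp
        · rfl
  · -- `X ^ q ∈ U q`
    have hq : 1 < Fintype.card k := Fintype.one_lt_card
    refine ⟨MvPolynomial.X 0 ^ Fintype.card k - MvPolynomial.X 0, ⟨?_, ?_⟩, ?_⟩
    · apply Submodule.sub_mem
      · rw [MvPolynomial.mem_restrictTotalDegree, MvPolynomial.totalDegree_X_pow]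
      · rw [MvPolynomial.mem_restrictTotalDegree, MvPolynomial.totalDegree_X]
        exact hq.le
    · rw [SetLike.mem_coe, mem_ker_ev]
      intro a _
      rw [map_sub, map_pow, MvPolynomial.eval_X, FiniteField.pow_card, sub_self]
    · ext i
      rw [coeff_top, MvPolynomial.coeff_sub, MvPolynomial.coeff_X_pow, MvPolynomial.coeff_X',
        Polynomial.coeff_X_pow]
      by_cases hi : i = Fintype.card k
      · subst hi
        rw [if_pos le_rfl, if_pos (by simp), if_neg, if_pos rfl, sub_zero]
        intro h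
        have := DFunLike.congr_fun h 0
        simp at this
        omega
      · rw [if_neg (c := i = Fintype.card k) hi]
        split_ifs with h1 h2 h3 h4
        · have := DFunLike.congr_fun h2 0
          simp at this
          omega
        · have := DFunLike.congr_fun h2 0
          simp at this
          omega
        · have h5 := DFunLike.congr_fun h4 0
          have h6 := DFunLike.congr_fun h4 1
          simp at h5 h6
          omega
        · simp
        · rfl
  · -- the sum
    obtain ⟨N₀, hN₀⟩ := surj A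
    refine ⟨N₀, fun N hN => ?_⟩
    have h1 := rn (RR k N) (ev A)
    rw [hN₀ N hN, finrank_top, Module.finrank_fintype_fun_eq_card, Fintype.card_coe,
      dimM (LinearMap.ker (ev A)) N] at h1
    have h2 := dimM (⊤ : Submodule k (MvPolynomial (Fin 2) k)) N
    rw [inf_top_eq] at h2
    have h3 : ∀ i, finrank k ↥((RR k i ⊓ ⊤).map (top k i)) = i + 1 := by
      intro i
      rw [map_RR, finrank_degreeLT]
    simp only [h3] at h2
    rw [h2] at h1
    have h4 : ∀ n, finrank k ↥((RR k n ⊓ LinearMap.ker (ev A)).map (top k n)) ≤ n + 1 := by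
      intro n
      have h5 := Submodule.finrank_mono (map_le (RR k n ⊓ LinearMap.ker (ev A)) n)
      rwa [finrank_degreeLT] at h5
    have h6 : ∑ n ∈ Finset.range (N + 1),
        (n + 1 - finrank k ↥((RR k n ⊓ LinearMap.ker (ev A)).map (top k n))) +
        ∑ n ∈ Finset.range (N + 1),
          finrank k ↥((RR k n ⊓ LinearMap.ker (ev A)).map (top k n)) =
        ∑ n ∈ Finset.range (N + 1), (n + 1) := by
      rw [← Finset.sum_add_distrib]
      apply Finset.sum_congr rfl
      intro n _
      have := h4 n
      omega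
    simp only at h6 ⊢
    omega
  · -- dimension of `W`
    have hfd : FiniteDimensional k W := Submodule.finiteDimensional_of_le (hWR.trans inf_le_left)
    have h1 := rn W (top k d)
    obtain ⟨e, rfl⟩ : ∃ e, d = e + 1 := ⟨d - 1, by omega⟩
    have h2 : W ⊓ LinearMap.ker (top k (e + 1)) ≤ RR k e ⊓ LinearMap.ker (ev A) := by
      rintro f ⟨hf1, hf2⟩
      have h3 := hWR hf1
      refine ⟨?_, h3.2⟩
      rw [SetLike.mem_coe, td_le]
      intro m hm
      have := ker_top (e + 1) f h3.1 hf2 m hm
      omega
    have hfd2 : FiniteDimensional k ↥(RR k e ⊓ LinearMap.ker (ev A)) :=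
      Submodule.finiteDimensional_of_le inf_le_left
    have h3 := Submodule.finrank_mono h2
    rw [dimM (LinearMap.ker (ev A)) e] at h3
    simp only at h3 ⊢
    omega

end Pool.Agent.H544R3.Bog
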