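import Mathlib

/-!
# Rank amplification

Linear algebra behind the amplification of linear sofic approximations: for automorphisms
`A, A'` of `V` and `B, B'` of `W`, the normalised rank distance of the induced automorphisms of
`Hom(W, V)` is at least `ρ + σ - 2 ρ σ` and at most `ρ + σ`.
-/

set_option autoImplicit false
set_option linter.unusedSectionVars false

namespace Pool.Agent.H544R3

open Module

universe u v w

variable {K : Type u} [Field K]
variable {V : Type v} [AddCommGroup V] [Module K V] [FiniteDimensional K V]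
variable {W : Type w} [AddCommGroup W] [Module K W] [FiniteDimensional K W]

/-- The rank of a linear map. -/
noncomputable def rk {V : Type v} [AddCommGroup V] [Module K V] {W : Type w} [AddCommGroup W]
    [Module K W] (f : V →ₗ[K] W) : ℕ := finrank K (LinearMap.range f)

theorem rk_add_ker (f : V →ₗ[K] W) : rk f + finrank K (LinearMap.ker f) = finrank K V :=
  LinearMap.finrank_range_add_finrank_ker f

theorem rk_le (f : V →ₗ[K] W) : rk f ≤ finrank K V := by
  have := rk_add_ker f
  omega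

theorem rk_equiv_comp (e : W ≃ₗ[K] W) (f : V →ₗ[K] W) : rk ((e : W →ₗ[K] W).comp f) = rk f := by
  unfold rk
  rw [LinearMap.range_comp]
  exact LinearEquiv.finrank_map_eq e _

theorem rk_comp_equiv (f : V →ₗ[K] W) (e : V ≃ₗ[K] V) : rk (f.comp (e : V →ₗ[K] V)) = rk f := by
  unfold rk
  rw [LinearMap.range_comp, LinearEquiv.range, Submodule.map_top]

theorem rk_neg (f : V →ₗ[K] W) : rk (-f) = rk f := by
  unfold rk
  rw [LinearMap.range_neg]

theorem rk_add_le (f g : V →ₗ[K] W) : rk (f + g) ≤ rk f + rk g := by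
  unfold rk
  refine le_trans (Submodule.finrank_mono (t := LinearMap.range f ⊔ LinearMap.range g) ?_)
    (Submodule.finrank_add_le_finrank_add_finrank _ _)
  rintro _ ⟨x, rfl⟩
  exact Submodule.add_mem_sup (LinearMap.mem_range_self f x) (LinearMap.mem_range_self g x)

/-- A space of maps killing `P` and with image in `Q` has dimension at most
`codim P * dim Q`. -/
theorem finrank_hom_le (T : Submodule K (W →ₗ[K] V)) (P : Submodule K W) (Q : Submodule K V)
    (h : ∀ X ∈ T, P ≤ LinearMap.ker X ∧ LinearMap.range X ≤ Q) :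
    finrank K T ≤ (finrank K W - finrank K P) * finrank K Q := by
  let Φ : ((W ⧸ P) →ₗ[K] Q) →ₗ[K] (W →ₗ[K] V) :=
    { toFun := fun Z => Q.subtype.comp (Z.comp P.mkQ)
      map_add' := by intro a b; ext x; simp
      map_smul' := by intro a b; ext x; simp }
  have h1 : T ≤ LinearMap.range Φ := by
    intro X hX
    obtain ⟨h2, h3⟩ := h X hX
    have h4 : ∀ y : W ⧸ P, P.liftQ X h2 y ∈ Q := by
      intro y
      obtain ⟨x, rfl⟩ := P.mkQ_surjective y
      simp only [Submodule.mkQ_apply, Submodule.liftQ_apply]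
      exact h3 (LinearMap.mem_range_self X x)
    refine ⟨(P.liftQ X h2).codRestrict Q h4, ?_⟩
    ext x
    simp [Φ]
  calc finrank K T ≤ finrank K (LinearMap.range Φ) := Submodule.finrank_mono h1
    _ ≤ finrank K ((W ⧸ P) →ₗ[K] Q) := LinearMap.finrank_range_le Φ
    _ = finrank K (W ⧸ P) * finrank K Q := Module.finrank_linearMap K K _ _
    _ = (finrank K W - finrank K P) * finrank K Q := by rw [Submodule.finrank_quotient]

theorem finrank_le_map_add_inf {E F : Type*} [AddCommGroup E] [Module K E] [FiniteDimensional K E]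
    [AddCommGroup F] [Module K F] (T : Submodule K E) (L : E →ₗ[K] F) :
    finrank K T = finrank K (T.map L) + finrank K (T ⊓ LinearMap.ker L : Submodule K E) := by
  have h1 := LinearMap.finrank_range_add_finrank_ker (L.domRestrict T)
  rw [LinearMap.range_domRestrict, LinearMap.ker_domRestrict] at h1
  rw [← h1, ← Submodule.map_comap_subtype, Submodule.finrank_map_subtype_eq]

/-- The automorphism `X ↦ A X B⁻¹` of `Hom(W, V)`. -/
def cj (B : W ≃ₗ[K] W) (A : V ≃ₗ[K] V) : (W →ₗ[K] V) ≃ₗ[K] (W →ₗ[K] V) where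
  toFun := fun X => (A : V →ₗ[K] V).comp (X.comp (B.symm : W →ₗ[K] W))
  invFun := fun X => (A.symm : V →ₗ[K] V).comp (X.comp (B : W →ₗ[K] W))
  map_add' := by intro a b; ext x; simp
  map_smul' := by intro a b; ext x; simp
  left_inv := by intro a; ext x; simp
  right_inv := by intro a; ext x; simp

omit [FiniteDimensional K V] [FiniteDimensional K W] in
theorem cj_apply (B : W ≃ₗ[K] W) (A : V ≃ₗ[K] V) (X : W →ₗ[K] V) (x : W) :
    cj B A X x = A (X (B.symm x)) := rfl

/-- The map `X ↦ A X B⁻¹ - A' X B'⁻¹` on `Hom(W, V)`. -/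
noncomputable def TT (A A' : V ≃ₗ[K] V) (B B' : W ≃ₗ[K] W) : (W →ₗ[K] V) →ₗ[K] (W →ₗ[K] V) :=
  (cj B A : (W →ₗ[K] V) →ₗ[K] (W →ₗ[K] V)) - (cj B' A' : (W →ₗ[K] V) →ₗ[K] (W →ₗ[K] V))

omit [FiniteDimensional K V] [FiniteDimensional K W] in
theorem TT_apply (A A' : V ≃ₗ[K] V) (B B' : W ≃ₗ[K] W) (X : W →ₗ[K] V) (x : W) :
    TT A A' B B' X x = A (X (B.symm x)) - A' (X (B'.symm x)) := by
  simp [TT, cj_apply]

theorem rk_left (A A' : V ≃ₗ[K] V) :
    rk ((A'.symm : V →ₗ[K] V).comp (A : V →ₗ[K] V) - LinearMap.id) =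
      rk ((A : V →ₗ[K] V) - (A' : V →ₗ[K] V)) := by
  rw [← rk_equiv_comp A'.symm ((A : V →ₗ[K] V) - (A' : V →ₗ[K] V))]
  congr 1
  ext x
  simp

theorem finrank_ker_TT (A A' : V ≃ₗ[K] V) (B B' : W ≃ₗ[K] W) :
    finrank K (LinearMap.ker (TT A A' B B')) ≤
      rk ((B : W →ₗ[K] W) - (B' : W →ₗ[K] W)) * rk ((A : V →ₗ[K] V) - (A' : V →ₗ[K] V)) +
      (finrank K W - rk ((B : W →ₗ[K] W) - (B' : W →ₗ[K] W))) *
        (finrank K V - rk ((A : V →ₗ[K] V) - (A' : V →ₗ[K] V))) := by
  set N : V →ₗ[K] V := (A'.symm : V →ₗ[K] V).comp (A : V →ₗ[K] V) - LinearMap.id with hN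
  set M : W →ₗ[K] W := (B'.symm : W →ₗ[K] W).comp (B : W →ₗ[K] W) - LinearMap.id with hM
  have hrN : rk N = rk ((A : V →ₗ[K] V) - (A' : V →ₗ[K] V)) := rk_left A A'
  have hrM : rk M = rk ((B : W →ₗ[K] W) - (B' : W →ₗ[K] W)) := rk_left B B'
  rw [← hrN, ← hrM]
  have key : ∀ X ∈ LinearMap.ker (TT A A' B B'), N.comp X = X.comp M := by
    intro X hX
    rw [LinearMap.mem_ker] at hX
    ext x
    have h1 := congrArg (fun f : W →ₗ[K] V => f (B x)) hX
    simp only [TT_apply, LinearMap.zero_apply, LinearEquiv.symm_apply_apply] at h1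
    have h2 : A'.symm (A (X x)) = X (B'.symm (B x)) := by
      rw [LinearEquiv.symm_apply_eq]
      exact sub_eq_zero.1 h1
    simp [hN, hM, h2]
  let L : (W →ₗ[K] V) →ₗ[K] (W →ₗ[K] V) :=
    { toFun := fun X => N.comp X
      map_add' := by intro a b; ext x; simp
      map_smul' := by intro a b; ext x; simp }
  have h1 : finrank K ((LinearMap.ker (TT A A' B B')).map L) ≤ rk M * rk N := by
    have := finrank_hom_le ((LinearMap.ker (TT A A' B B')).map L) (LinearMap.ker M)
      (LinearMap.range N) ?_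
    · refine this.trans (le_of_eq ?_)
      have h2 := rk_add_ker M
      have h3 : finrank K W - finrank K (LinearMap.ker M) = rk M := by omega
      rw [h3]
      rfl
    · rintro _ ⟨X, hX, rfl⟩
      have h4 := key X hX
      refine ⟨?_, ?_⟩
      · intro x hx
        show N.comp X x = 0
        rw [h4]
        rw [LinearMap.mem_ker] at hx
        simp [hx]
      · exact LinearMap.range_comp_le_range X N
  have h2 : finrank K (LinearMap.ker (TT A A' B B') ⊓ LinearMap.ker L :
      Submodule K (W →ₗ[K] V)) ≤ (finrank K W - rk M) * (finrank K V - rk N) := by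
    have := finrank_hom_le (LinearMap.ker (TT A A' B B') ⊓ LinearMap.ker L) (LinearMap.range M)
      (LinearMap.ker N) ?_
    · refine this.trans (le_of_eq ?_)
      have h2 := rk_add_ker N
      have h3 : finrank K (LinearMap.ker N) = finrank K V - rk N := by omega
      rw [h3]
      rfl
    · rintro X ⟨hX, hX'⟩
      have h4 := key X hX
      have h5 : N.comp X = 0 := hX'
      refine ⟨?_, ?_⟩
      · rintro _ ⟨x, rfl⟩
        rw [LinearMap.mem_ker]
        have : X.comp M x = 0 := by rw [← h4, h5]; rfl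
        exact this
      · rintro _ ⟨x, rfl⟩
        rw [LinearMap.mem_ker]
        exact LinearMap.congr_fun h5 x
  rw [finrank_le_map_add_inf (LinearMap.ker (TT A A' B B')) L]
  exact add_le_add h1 h2

theorem rk_TT_le (A A' : V ≃ₗ[K] V) (B B' : W ≃ₗ[K] W) :
    rk (TT A A' B B') ≤
      finrank K W * rk ((A : V →ₗ[K] V) - (A' : V →ₗ[K] V)) +
      rk ((B : W →ₗ[K] W) - (B' : W →ₗ[K] W)) * finrank K V := by
  set N : V →ₗ[K] V := (A : V →ₗ[K] V) - (A' : V →ₗ[K] V) with hN
  set M : W →ₗ[K] W := (B.symm : W →ₗ[K] W) - (B'.symm : W →ₗ[K] W) with hM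
  have hrM : rk M = rk ((B : W →ₗ[K] W) - (B' : W →ₗ[K] W)) := by
    have h1 : M = -((B.symm : W →ₗ[K] W).comp
        (((B : W →ₗ[K] W) - (B' : W →ₗ[K] W)).comp (B'.symm : W →ₗ[K] W))) := by
      ext x
      simp [hM]
    rw [h1, rk_neg, rk_equiv_comp, rk_comp_equiv]
  rw [← hrM]
  let T1 : (W →ₗ[K] V) →ₗ[K] (W →ₗ[K] V) :=
    { toFun := fun X => N.comp (X.comp (B.symm : W →ₗ[K] W))
      map_add' := by intro a b; ext x; simp
      map_smul' := by intro a b; ext x; simp }
  let T2 : (W →ₗ[K] V) →ₗ[K] (W →ₗ[K] V) :=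
    { toFun := fun X => (A' : V →ₗ[K] V).comp (X.comp M)
      map_add' := by intro a b; ext x; simp
      map_smul' := by intro a b; ext x; simp }
  have hT : TT A A' B B' = T1 + T2 := by
    ext X x
    simp [TT_apply, T1, T2, hN, hM]
  rw [hT]
  refine (rk_add_le T1 T2).trans (add_le_add ?_ ?_)
  · have := finrank_hom_le (LinearMap.range T1) (⊥ : Submodule K W) (LinearMap.range N) ?_
    · rw [finrank_bot, Nat.sub_zero] at this
      exact this
    · rintro _ ⟨X, rfl⟩
      exact ⟨bot_le, LinearMap.range_comp_le_range _ N⟩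
  · have := finrank_hom_le (LinearMap.range T2) (LinearMap.ker M) (⊤ : Submodule K V) ?_
    · rw [finrank_top] at this
      have h2 := rk_add_ker M
      have h3 : finrank K W - finrank K (LinearMap.ker M) = rk M := by omega
      rw [h3] at this
      exact this
    · rintro _ ⟨X, rfl⟩
      refine ⟨?_, le_top⟩
      intro x hx
      rw [LinearMap.mem_ker] at hx ⊢
      simp [T2, hx]

/-- The normalised rank distance of two automorphisms. -/
noncomputable def dd (A A' : V ≃ₗ[K] V) : ℝ :=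
  (rk ((A : V →ₗ[K] V) - (A' : V →ₗ[K] V)) : ℝ) / finrank K V

theorem rk_TT_eq (A A' : V ≃ₗ[K] V) (B B' : W ≃ₗ[K] W) :
    dd (cj B A) (cj B' A') =
      (rk (TT A A' B B') : ℝ) / (finrank K V * finrank K W) := by
  unfold dd
  rw [Module.finrank_linearMap K K, Nat.cast_mul, mul_comm (finrank K W : ℝ)]
  rfl

theorem dd_hom_le (hV : 0 < finrank K V) (hW : 0 < finrank K W)
    (A A' : V ≃ₗ[K] V) (B B' : W ≃ₗ[K] W) :
    dd (cj B A) (cj B' A') ≤ dd A A' + dd B B' := by
  rw [rk_TT_eq]
  have hV' : (0 : ℝ) < finrank K V := by exact_mod_cast hV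
  have hW' : (0 : ℝ) < finrank K W := by exact_mod_cast hW
  unfold dd
  rw [div_add_div _ _ hV'.ne' hW'.ne']
  apply div_le_div_of_nonneg_right _ (by positivity)
  have := rk_TT_le A A' B B'
  have h2 : ((rk (TT A A' B B') : ℕ) : ℝ) ≤ ((finrank K W * rk ((A : V →ₗ[K] V) - (A' : V →ₗ[K] V)) +
      rk ((B : W →ₗ[K] W) - (B' : W →ₗ[K] W)) * finrank K V : ℕ) : ℝ) := by exact_mod_cast this
  push_cast at h2
  linarith

theorem le_dd_hom (hV : 0 < finrank K V) (hW : 0 < finrank K W)
    (A A' : V ≃ₗ[K] V) (B B' : W ≃ₗ[K] W) :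
    dd A A' + dd B B' - 2 * (dd A A' * dd B B') ≤
      dd (cj B A) (cj B' A') := by
  rw [rk_TT_eq]
  have hV' : (0 : ℝ) < finrank K V := by exact_mod_cast hV
  have hW' : (0 : ℝ) < finrank K W := by exact_mod_cast hW
  unfold dd
  set r := rk ((A : V →ₗ[K] V) - (A' : V →ₗ[K] V)) with hr
  set s := rk ((B : W →ₗ[K] W) - (B' : W →ₗ[K] W)) with hs
  have hr1 : r ≤ finrank K V := rk_le _
  have hs1 : s ≤ finrank K W := rk_le _
  have h1 := finrank_ker_TT A A' B B'
  rw [← hr, ← hs] at h1
  have h2 := rk_add_ker (TT A A' B B')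
  rw [Module.finrank_linearMap K K] at h2
  have h3 : ((rk (TT A A' B B') : ℕ) : ℝ) + (finrank K (LinearMap.ker (TT A A' B B')) : ℕ) =
      (finrank K W : ℝ) * finrank K V := by exact_mod_cast h2
  have h4 : ((finrank K (LinearMap.ker (TT A A' B B')) : ℕ) : ℝ) ≤
      (s : ℝ) * r + ((finrank K W : ℝ) - s) * ((finrank K V : ℝ) - r) := by
    have : ((finrank K (LinearMap.ker (TT A A' B B')) : ℕ) : ℝ) ≤
      ((s * r + (finrank K W - s) * (finrank K V - r) : ℕ) : ℝ) := by exact_mod_cast h1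
    rw [Nat.cast_add, Nat.cast_mul, Nat.cast_mul, Nat.cast_sub hs1, Nat.cast_sub hr1] at this
    exact this
  rw [le_div_iff₀ (by positivity)]
  have h5 : ((r : ℝ) / finrank K V + (s : ℝ) / finrank K W -
      2 * ((r : ℝ) / finrank K V * ((s : ℝ) / finrank K W))) * (finrank K V * finrank K W) =
      r * finrank K W + s * finrank K V - 2 * r * s := by
    field_simp
  rw [h5]
  nlinarith [h3, h4]

end Pool.Agent.H544R3
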