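import Mathlib
import Pool.Agent.H544R3.RankAmp

/-!
# Iterated amplification and conversion to matrices
-/

set_option autoImplicit false
set_option linter.unusedSectionVars false

namespace Pool.Agent.H544R3

open Module

universe u v w

variable {K : Type u} [Field K]

theorem dd_nonneg {V : Type v} [AddCommGroup V] [Module K V] (A B : V ≃ₗ[K] V) : 0 ≤ dd A B := by
  unfold dd
  positivity

theorem dd_le_one {V : Type v} [AddCommGroup V] [Module K V] [FiniteDimensional K V]
    (A B : V ≃ₗ[K] V) : dd A B ≤ 1 := by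
  unfold dd
  apply div_le_one_of_le₀ _ (by positivity)
  exact_mod_cast rk_le _

theorem cj_mul {V : Type v} [AddCommGroup V] [Module K V] {W : Type w} [AddCommGroup W]
    [Module K W] (B B' : W ≃ₗ[K] W) (A A' : V ≃ₗ[K] V) :
    cj B A * cj B' A' = cj (B * B') (A * A') := by
  ext X x
  rfl

/-- Iterating the construction. -/
theorem iterate {G : Type v} [Group G] {V0 : Type u} [AddCommGroup V0] [Module K V0]
    [FiniteDimensional K V0] (φ0 : G → (V0 ≃ₗ[K] V0)) (hV : 0 < finrank K V0) (k : ℕ) :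
    ∃ (V : Type u) (_ : AddCommGroup V) (_ : Module K V) (_ : FiniteDimensional K V)
      (φ : G → (V ≃ₗ[K] V)), 0 < finrank K V ∧
      (∀ g h, dd (φ g * φ h) (φ (g * h)) ≤ (k + 1) * dd (φ0 g * φ0 h) (φ0 (g * h))) ∧
      (∀ g h, dd (φ0 g) (φ0 h) ≤ 1 / 2 →
        1 / 2 - (1 / 2 - dd (φ0 g) (φ0 h)) * (1 - 2 * dd (φ0 g) (φ0 h)) ^ k ≤
          dd (φ g) (φ h)) := by
  induction k with
  | zero =>
    refine ⟨V0, inferInstance, inferInstance, inferInstance, φ0, hV, ?_, ?_⟩
    · intro g h; simp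
    · intro g h _; simp
  | succ k ih =>
    obtain ⟨V, i1, i2, i3, φ, h0, h1, h2⟩ := ih
    refine ⟨V0 →ₗ[K] V, inferInstance, inferInstance, inferInstance,
      fun g => cj (φ0 g) (φ g), ?_, ?_, ?_⟩
    · rw [Module.finrank_linearMap K K]; positivity
    · intro g h
      rw [cj_mul]
      refine (dd_hom_le h0 hV _ _ _ _).trans ?_
      have := h1 g h
      push_cast
      linarith
    · intro g h hx
      refine le_trans ?_ (le_dd_hom h0 hV (φ g) (φ h) (φ0 g) (φ0 h))
      have h3 := h2 g h hx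
      set x := dd (φ0 g) (φ0 h)
      set ρ := dd (φ g) (φ h)
      have e1 : ρ + x - 2 * (ρ * x) = 1 / 2 - (1 / 2 - ρ) * (1 - 2 * x) := by ring
      have e2 : 1 / 2 - (1 / 2 - x) * (1 - 2 * x) ^ (k + 1) =
          1 / 2 - ((1 / 2 - x) * (1 - 2 * x) ^ k) * (1 - 2 * x) := by ring
      rw [e1, e2]
      have h4 : 0 ≤ 1 - 2 * x := by linarith
      have h5 : 1 / 2 - ρ ≤ (1 / 2 - x) * (1 - 2 * x) ^ k := by linarith
      have := mul_le_mul_of_nonneg_right h5 h4
      linarith

/-- Adding a trivial summand of the same dimension. -/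
theorem double {V : Type u} [AddCommGroup V] [Module K V] [FiniteDimensional K V]
    (A B : V ≃ₗ[K] V) :
    dd (A.prodCongr (LinearEquiv.refl K V)) (B.prodCongr (LinearEquiv.refl K V)) =
      dd A B / 2 := by
  unfold dd
  have h : (((A.prodCongr (LinearEquiv.refl K V) : (V × V) ≃ₗ[K] (V × V)) : (V × V) →ₗ[K] (V × V)) -
      ((B.prodCongr (LinearEquiv.refl K V) : (V × V) ≃ₗ[K] (V × V)) : (V × V) →ₗ[K] (V × V))) =
      (LinearMap.inl K V V).comp
        (((A : V →ₗ[K] V) - (B : V →ₗ[K] V)).comp (LinearMap.fst K V V)) := by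
    ext x <;> simp
  rw [h]
  have h2 : rk ((LinearMap.inl K V V).comp
        (((A : V →ₗ[K] V) - (B : V →ₗ[K] V)).comp (LinearMap.fst K V V))) =
        rk ((A : V →ₗ[K] V) - (B : V →ₗ[K] V)) := by
    unfold rk
    rw [LinearMap.range_comp, LinearMap.range_comp, LinearMap.range_eq_top.2
      LinearMap.fst_surjective, Submodule.map_top]
    exact (LinearEquiv.finrank_eq (Submodule.equivMapOfInjective (LinearMap.inl K V V)
      LinearMap.inl_injective _)).symm
  rw [h2, Module.finrank_prod]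
  push_cast
  rw [div_div]
  congr 1
  ring

theorem amplify {G : Type v} [Group G] (F : Finset G) (c δ : ℝ) (hc : 0 < c) (hδ : 0 < δ) :
    ∃ δ' : ℝ, 0 < δ' ∧ ∀ (V : Type u) (_ : AddCommGroup V) (_ : Module K V)
      (_ : FiniteDimensional K V) (φ : G → (V ≃ₗ[K] V)), 0 < finrank K V →
      (∀ g ∈ F, ∀ h ∈ F, dd (φ g * φ h) (φ (g * h)) < δ') →
      (∀ g ∈ F, ∀ h ∈ F, g ≠ h → c - δ' < dd (φ g) (φ h)) →
      ∃ (V' : Type u) (_ : AddCommGroup V') (_ : Module K V')
        (_ : FiniteDimensional K V') (φ' : G → (V' ≃ₗ[K] V')), 0 < finrank K V' ∧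
        (∀ g ∈ F, ∀ h ∈ F, dd (φ' g * φ' h) (φ' (g * h)) < δ) ∧
        (∀ g ∈ F, ∀ h ∈ F, g ≠ h → 1 / 2 - δ < dd (φ' g) (φ' h)) := by
  set c' : ℝ := min c 1 with hc'
  have hc0 : 0 < c' := lt_min hc one_pos
  have hc1 : c' ≤ 1 := min_le_right _ _
  obtain ⟨k, hk⟩ := exists_pow_lt_of_lt_one hδ (show 1 - c' / 2 < 1 by linarith)
  refine ⟨min (c' / 2) (δ / (k + 1)), lt_min (by linarith) (by positivity), ?_⟩
  intro V i1 i2 i3 φ hV h1 h2
  have hfr : 0 < finrank K (V × V) := by rw [Module.finrank_prod]; omega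
  obtain ⟨V', j1, j2, j3, φ', g0, g1, g2⟩ := iterate (K := K)
    (fun g => (φ g).prodCongr (LinearEquiv.refl K V)) hfr k
  refine ⟨V', j1, j2, j3, φ', g0, ?_, ?_⟩
  · intro g hg h hh
    refine lt_of_le_of_lt (g1 g h) ?_
    have e : (φ g).prodCongr (LinearEquiv.refl K V) * (φ h).prodCongr (LinearEquiv.refl K V) =
        (φ g * φ h).prodCongr (LinearEquiv.refl K V) := by
      ext x <;> rfl
    rw [e, double]
    have h3 := h1 g hg h hh
    have h4 : dd (φ g * φ h) (φ (g * h)) < δ / (k + 1) := lt_of_lt_of_le h3 (min_le_right _ _)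
    have h5 : (0 : ℝ) < k + 1 := by positivity
    have h6 := dd_nonneg (φ g * φ h) (φ (g * h))
    rw [lt_div_iff₀ h5] at h4
    nlinarith
  · intro g hg h hh hne
    have h3 := h2 g hg h hh hne
    have h4 : c' / 2 < dd (φ g) (φ h) := by
      have : min (c' / 2) (δ / (k + 1)) ≤ c' / 2 := min_le_left _ _
      have h5 : c' ≤ c := min_le_left _ _
      linarith
    have h5 := dd_le_one (φ g) (φ h)
    have h6 := g2 g h (by rw [double]; linarith)
    rw [double] at h6
    refine lt_of_lt_of_le ?_ h6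
    set y := dd (φ g) (φ h)
    have e1 : 1 - 2 * (y / 2) = 1 - y := by ring
    rw [e1]
    have h7 : (1 - y) ^ k ≤ (1 - c' / 2) ^ k := pow_le_pow_left₀ (by linarith) (by linarith) k
    have h8 : 0 ≤ (1 - y) ^ k := pow_nonneg (by linarith) k
    have h9 : (1 / 2 - y / 2) * (1 - y) ^ k ≤ (1 - y) ^ k := by
      have : (1 / 2 - y / 2) ≤ 1 := by linarith [dd_nonneg (φ g) (φ h)]
      nlinarith
    linarith

/-! ### Conversion between matrices and automorphisms -/

/-- The normalised rank distance on `GL(n, K)`. -/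
noncomputable def rankDist {n : ℕ} (A B : GL (Fin n) K) : ℝ :=
  (((A : Matrix (Fin n) (Fin n) K) - (B : Matrix (Fin n) (Fin n) K)).rank : ℝ) / n

/-- The automorphism of `K^n` attached to an invertible matrix. -/
noncomputable def toAut (n : ℕ) : GL (Fin n) K ≃* ((Fin n → K) ≃ₗ[K] (Fin n → K)) :=
  (Matrix.GeneralLinearGroup.toLin).trans
    (LinearMap.GeneralLinearGroup.generalLinearEquiv K (Fin n → K))

theorem dd_toAut {n : ℕ} (A B : GL (Fin n) K) : dd (toAut n A) (toAut n B) = rankDist A B := by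
  have h : ((toAut n A : (Fin n → K) ≃ₗ[K] (Fin n → K)) : (Fin n → K) →ₗ[K] (Fin n → K)) -
      ((toAut n B : (Fin n → K) ≃ₗ[K] (Fin n → K)) : (Fin n → K) →ₗ[K] (Fin n → K)) =
      ((A : Matrix (Fin n) (Fin n) K) - (B : Matrix (Fin n) (Fin n) K)).mulVecLin := by
    apply LinearMap.ext
    intro x
    simp [toAut, Matrix.GeneralLinearGroup.toLin, Matrix.sub_mulVec]
  unfold dd rankDist
  rw [Module.finrank_fin_fun, h]
  rfl

/-- Conjugating by an isomorphism. -/
def conjE {V : Type v} [AddCommGroup V] [Module K V] {W : Type w} [AddCommGroup W]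
    [Module K W] (e : V ≃ₗ[K] W) (A : V ≃ₗ[K] V) : W ≃ₗ[K] W := (e.symm.trans A).trans e

theorem conjE_mul {V : Type v} [AddCommGroup V] [Module K V] {W : Type w} [AddCommGroup W]
    [Module K W] (e : V ≃ₗ[K] W) (A B : V ≃ₗ[K] V) :
    conjE e (A * B) = conjE e A * conjE e B := by
  ext x
  simp [conjE]

theorem dd_conjE {V : Type v} [AddCommGroup V] [Module K V] {W : Type w} [AddCommGroup W]
    [Module K W] (e : V ≃ₗ[K] W) (A B : V ≃ₗ[K] V) :
    dd (conjE e A) (conjE e B) = dd A B := by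
  unfold dd
  rw [e.finrank_eq]
  congr 2
  unfold rk
  have h : ((conjE e A : W ≃ₗ[K] W) : W →ₗ[K] W) - ((conjE e B : W ≃ₗ[K] W) : W →ₗ[K] W) =
      (e : V →ₗ[K] W).comp (((A : V →ₗ[K] V) - (B : V →ₗ[K] V)).comp (e.symm : W →ₗ[K] V)) := by
    ext x
    simp [conjE]
  rw [h, LinearMap.range_comp, LinearMap.range_comp, LinearEquiv.range, Submodule.map_top]
  exact LinearEquiv.finrank_map_eq e _

/-- Automorphisms of a finite-dimensional space as matrices. -/
theorem exists_toGL (V : Type v) [AddCommGroup V] [Module K V] [FiniteDimensional K V] :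
    ∃ Θ : (V ≃ₗ[K] V) → GL (Fin (finrank K V)) K, (∀ A B, Θ (A * B) = Θ A * Θ B) ∧
      ∀ A B, rankDist (Θ A) (Θ B) = dd A B := by
  let e : V ≃ₗ[K] (Fin (finrank K V) → K) := (Module.finBasis K V).equivFun
  refine ⟨fun A => (toAut _).symm (conjE e A), ?_, ?_⟩
  · intro A B
    show (toAut _).symm (conjE e (A * B)) = _
    rw [conjE_mul, map_mul]
  · intro A B
    rw [← dd_toAut, MulEquiv.apply_symm_apply, MulEquiv.apply_symm_apply, dd_conjE]

end Pool.Agent.H544R3
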