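import Mathlib
import Pool.Agent.H544R3.RankAmp2

/-!
# Elementary abelian 2-groups are not approximable beyond one half
-/

set_option autoImplicit false
set_option linter.unusedSectionVars false

namespace Pool.Agent.H544R3

open Module

universe u v w

/-- Every representation of `G` over `K` has average rank of `φ g - 1` at most half of the
dimension. -/
def HB (K : Type u) [Field K] (G : Type v) [Group G] [Fintype G] : Prop :=
  ∀ (V : Type u) [AddCommGroup V] [Module K V] [FiniteDimensional K V]
    (φ : G →* Module.End K V), 2 * ∑ g, rk (φ g - 1) ≤ Fintype.card G * finrank K V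

variable {K : Type u} [Field K]

/-- a linear map with square-zero-like product has small rank -/
theorem rk_add_le_of_comp_eq_zero {V : Type v} [AddCommGroup V] [Module K V]
    [FiniteDimensional K V] (f g : Module.End K V) (h : f * g = 0) :
    rk f + rk g ≤ finrank K V := by
  have h1 := rk_add_ker f
  have h2 : rk g ≤ finrank K (LinearMap.ker f) := by
    apply Submodule.finrank_mono
    rintro _ ⟨x, rfl⟩
    exact LinearMap.congr_fun h x
  omega

theorem HB_of_two_eq_zero (h2 : (2 : K) = 0) (G : Type v) [Group G] [Fintype G]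
    (hG : ∀ g : G, g * g = 1) : HB K G := by
  intro V _ _ _ φ
  rw [Finset.mul_sum]
  have : ∀ g ∈ (Finset.univ : Finset G), 2 * rk (φ g - 1) ≤ finrank K V := by
    intro g _
    have h3 : (φ g - 1) * (φ g - 1) = 0 := by
      have e1 : φ g * φ g = 1 := by rw [← map_mul, hG, map_one]
      have e2 : (φ g - 1) * (φ g - 1) = φ g * φ g - (2 : K) • φ g + 1 := by
        rw [two_smul]; noncomm_ring
      rw [e2, e1, h2, zero_smul, sub_zero]
      have : (1 : Module.End K V) + 1 = (2 : K) • 1 := by rw [two_smul]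
      rw [this, h2, zero_smul]
    have := rk_add_le_of_comp_eq_zero _ _ h3
    omega
  calc ∑ g, 2 * rk (φ g - 1) ≤ ∑ _g : G, finrank K V := Finset.sum_le_sum this
    _ = Fintype.card G * finrank K V := by simp

theorem rk_subtype_comp {V : Type v} [AddCommGroup V] [Module K V] (U : Submodule K V)
    {W : Type w} [AddCommGroup W] [Module K W] (f : W →ₗ[K] U) :
    rk (U.subtype.comp f) = rk f := by
  unfold rk
  rw [LinearMap.range_comp]
  exact Submodule.finrank_map_subtype_eq U _

theorem rk_le_of_sup_eq_top {V : Type v} [AddCommGroup V] [Module K V] [FiniteDimensional K V]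
    (U₁ U₂ : Submodule K V) (h : U₁ ⊔ U₂ = ⊤) (T : Module.End K V) :
    rk T ≤ rk (T.comp U₁.subtype) + rk (T.comp U₂.subtype) := by
  unfold rk
  have : LinearMap.range T = LinearMap.range (T.comp U₁.subtype) ⊔
      LinearMap.range (T.comp U₂.subtype) := by
    rw [LinearMap.range_comp, LinearMap.range_comp, Submodule.range_subtype,
      Submodule.range_subtype, ← Submodule.map_sup, h, Submodule.map_top]
  rw [this]
  exact Submodule.finrank_add_le_finrank_add_finrank _ _

/-- Restricting a representation to an invariant subspace. -/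
def restr {G : Type v} [Group G] {V : Type u} [AddCommGroup V] [Module K V]
    (φ : G →* Module.End K V) (U : Submodule K V) (h : ∀ g, ∀ x ∈ U, φ g x ∈ U) :
    G →* Module.End K U where
  toFun := fun g => (φ g).restrict (h g)
  map_one' := by ext x; simp
  map_mul' := by intro a b; ext x; simp

theorem HB_prod (h2 : (2 : K) ≠ 0) (G : Type v) [Group G] [Fintype G]
    (hG : ∀ g : G, g * g = 1) (hP : HB K G) : HB K (ULift.{v} ℤˣ × G) := by
  intro V _ _ _ φ
  set c : ULift.{v} ℤˣ := ⟨-1⟩ with hc
  have hcc : c * c = 1 := by rw [hc]; rfl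
  set a : Module.End K V := φ (c, 1) with ha
  have haa : a * a = 1 := by
    rw [ha, ← map_mul, Prod.mk_mul_mk, hcc, one_mul]
    exact map_one φ
  let ψ : G →* Module.End K V := φ.comp (MonoidHom.inr (ULift.{v} ℤˣ) G)
  have hψ : ∀ g, ψ g = φ (1, g) := fun g => rfl
  have hcomm : ∀ g, a * ψ g = ψ g * a := by
    intro g
    rw [hψ, ha, ← map_mul, ← map_mul, Prod.mk_mul_mk, Prod.mk_mul_mk, one_mul, mul_one, one_mul,
      mul_one]
  have hcg : ∀ g, φ (c, g) = a * ψ g := by
    intro g
    rw [hψ, ha, ← map_mul, Prod.mk_mul_mk, one_mul, mul_one]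
  let U₁ : Submodule K V := LinearMap.ker (a - 1)
  let U₂ : Submodule K V := LinearMap.ker (a + 1)
  have m1 : ∀ x, x ∈ U₁ ↔ a x = x := by
    intro x
    simp only [U₁, LinearMap.mem_ker, LinearMap.sub_apply, Module.End.one_apply, sub_eq_zero]
  have m2 : ∀ x, x ∈ U₂ ↔ a x = -x := by
    intro x
    simp only [U₂, LinearMap.mem_ker, LinearMap.add_apply, Module.End.one_apply,
      add_eq_zero_iff_eq_neg]
  have haa' : ∀ x, a (a x) = x := fun x => LinearMap.congr_fun haa x
  have hcomm' : ∀ g x, a (ψ g x) = ψ g (a x) := fun g x => LinearMap.congr_fun (hcomm g) x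
  have inv1 : ∀ g, ∀ x ∈ U₁, ψ g x ∈ U₁ := by
    intro g x hx
    rw [m1] at hx ⊢
    rw [hcomm', hx]
  have inv2 : ∀ g, ∀ x ∈ U₂, ψ g x ∈ U₂ := by
    intro g x hx
    rw [m2] at hx ⊢
    rw [hcomm', hx, map_neg]
  have htop : U₁ ⊔ U₂ = ⊤ := by
    rw [eq_top_iff]
    intro x _
    have e : x = (2 : K)⁻¹ • (x + a x) + (2 : K)⁻¹ • (x - a x) := by
      rw [← smul_add]
      have : x + a x + (x - a x) = (2 : K) • x := by rw [two_smul]; abel
      rw [this, smul_smul, inv_mul_cancel₀ h2, one_smul]
    rw [e]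
    apply Submodule.add_mem_sup
    · apply Submodule.smul_mem
      rw [m1, map_add, haa']; abel
    · apply Submodule.smul_mem
      rw [m2, map_sub, haa']; abel
  have hdisj : finrank K U₁ + finrank K U₂ ≤ finrank K V := by
    apply Submodule.finrank_add_finrank_le_of_disjoint
    rw [Submodule.disjoint_def]
    intro x h1 h3
    rw [m1] at h1
    rw [m2, h1] at h3
    have h4 : (2 : K) • x = 0 := by
      rw [two_smul]
      nth_rw 1 [h3]
      abel
    exact (smul_eq_zero.1 h4).resolve_left h2
  let ψ₁ := restr ψ U₁ inv1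
  let ψ₂ := restr ψ U₂ inv2
  have k1 : ∀ g, rk (φ (1, g) - 1) ≤ rk (ψ₁ g - 1) + rk (ψ₂ g - 1) := by
    intro g
    refine (rk_le_of_sup_eq_top U₁ U₂ htop _).trans (add_le_add (le_of_eq ?_) (le_of_eq ?_))
    · rw [← rk_subtype_comp U₁ (ψ₁ g - 1)]
      congr 1
    · rw [← rk_subtype_comp U₂ (ψ₂ g - 1)]
      congr 1
  have k2 : ∀ g, rk (φ (c, g) - 1) ≤ rk (ψ₁ g - 1) + rk (ψ₂ g + 1) := by
    intro g
    refine (rk_le_of_sup_eq_top U₁ U₂ htop _).trans (add_le_add (le_of_eq ?_) (le_of_eq ?_))
    · rw [← rk_subtype_comp U₁ (ψ₁ g - 1)]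
      congr 1
      apply LinearMap.ext
      rintro ⟨x, hx⟩
      have h5 := (m1 _).1 (inv1 g x hx)
      show φ (c, g) x - x = ψ g x - x
      rw [hcg]
      show a (ψ g x) - x = ψ g x - x
      rw [h5]
    · rw [← rk_subtype_comp U₂ (ψ₂ g + 1), ← rk_neg]
      congr 1
      apply LinearMap.ext
      rintro ⟨x, hx⟩
      have h5 := (m2 _).1 (inv2 g x hx)
      show -(φ (c, g) x - x) = ψ g x + x
      rw [hcg]
      show -(a (ψ g x) - x) = ψ g x + x
      rw [h5]
      abel
  have k3 : ∀ g, rk (ψ₂ g + 1) + rk (ψ₂ g - 1) ≤ finrank K U₂ := by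
    intro g
    apply rk_add_le_of_comp_eq_zero
    have e1 : ψ₂ g * ψ₂ g = 1 := by rw [← map_mul, hG, map_one]
    have e2 : (ψ₂ g + 1) * (ψ₂ g - 1) = ψ₂ g * ψ₂ g - 1 := by
      rw [mul_sub, add_mul, one_mul, mul_one]
      abel
    rw [e2, e1, sub_self]
  have hsum : ∑ x : ULift.{v} ℤˣ × G, rk (φ x - 1) =
      ∑ g : G, (rk (φ (1, g) - 1) + rk (φ (c, g) - 1)) := by
    rw [Fintype.sum_prod_type, Finset.sum_add_distrib]
    rw [← Equiv.sum_comp Equiv.ulift.symm]
    rw [show (Finset.univ : Finset ℤˣ) = {1, -1} from by decide]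
    rw [Finset.sum_pair (by decide)]
    rfl
  have hIH := hP U₁ ψ₁
  have hbound : ∑ g : G, (rk (φ (1, g) - 1) + rk (φ (c, g) - 1)) ≤
      Fintype.card G * finrank K V := by
    calc ∑ g : G, (rk (φ (1, g) - 1) + rk (φ (c, g) - 1))
        ≤ ∑ g : G, (2 * rk (ψ₁ g - 1) + finrank K U₂) := by
          apply Finset.sum_le_sum
          intro g _
          have := k1 g
          have := k2 g
          have := k3 g
          omega
      _ = 2 * ∑ g : G, rk (ψ₁ g - 1) + Fintype.card G * finrank K U₂ := by
          rw [Finset.sum_add_distrib, ← Finset.mul_sum]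
          simp
      _ ≤ Fintype.card G * finrank K U₁ + Fintype.card G * finrank K U₂ :=
          Nat.add_le_add_right hIH _
      _ = Fintype.card G * (finrank K U₁ + finrank K U₂) := by ring
      _ ≤ Fintype.card G * finrank K V := Nat.mul_le_mul_left _ hdisj
  rw [hsum, Fintype.card_prod, Fintype.card_ulift, Fintype.card_units_int, mul_assoc]
  exact Nat.mul_le_mul_left 2 hbound

/-- Elementary abelian 2-groups satisfy the half bound over every field. -/
theorem exists_HB (K : Type u) [Field K] (k : ℕ) :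
    ∃ (G : Type v) (_ : Group G) (_ : Fintype G), (∀ g : G, g * g = 1) ∧
      Fintype.card G = 2 ^ k ∧ HB K G := by
  by_cases h2 : (2 : K) = 0
  · have : ∃ (G : Type v) (_ : Group G) (_ : Fintype G), (∀ g : G, g * g = 1) ∧
      Fintype.card G = 2 ^ k := by
      induction k with
      | zero => exact ⟨PUnit, inferInstance, inferInstance, fun _ => rfl, by simp⟩
      | succ k ih =>
        obtain ⟨G, i1, i2, h3, h4⟩ := ih
        refine ⟨ULift.{v} ℤˣ × G, inferInstance, inferInstance, ?_, ?_⟩
        · rintro ⟨⟨x⟩, g⟩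
          have hx : x * x = 1 := Int.units_mul_self x
          refine Prod.ext ?_ (h3 g)
          exact congrArg ULift.up hx
        · rw [Fintype.card_prod, Fintype.card_ulift, Fintype.card_units_int, h4, pow_succ,
            mul_comm]
    obtain ⟨G, i1, i2, h3, h4⟩ := this
    exact ⟨G, i1, i2, h3, h4, HB_of_two_eq_zero h2 G h3⟩
  · induction k with
    | zero =>
      refine ⟨PUnit, inferInstance, inferInstance, fun _ => rfl, by simp, ?_⟩
      intro V _ _ _ φ
      have : φ default = 1 := map_one φ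
      simp only [Finset.univ_unique, Finset.sum_singleton]
      rw [show (default : PUnit) = 1 from rfl, map_one, sub_self]
      have : rk (0 : Module.End K V) = 0 := by unfold rk; simp
      rw [this]
      simp
    | succ k ih =>
      obtain ⟨G, i1, i2, h3, h4, h5⟩ := ih
      refine ⟨ULift.{v} ℤˣ × G, inferInstance, inferInstance, ?_, ?_, HB_prod h2 G h3 h5⟩
      · rintro ⟨⟨x⟩, g⟩
        have hx : x * x = 1 := Int.units_mul_self x
        refine Prod.ext ?_ (h3 g)
        exact congrArg ULift.up hx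
      · rw [Fintype.card_prod, Fintype.card_ulift, Fintype.card_units_int, h4, pow_succ,
          mul_comm]

end Pool.Agent.H544R3
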