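import Mathlib
import Pool.Agent.H544R3.RankUpper

/-!
# Almost representations of finite groups restrict to representations
-/

set_option autoImplicit false
set_option linter.unusedSectionVars false

namespace Pool.Agent.H544R3

open Module

universe u v w

variable {K : Type u} [Field K]

theorem codim_iInf_ker {V : Type v} [AddCommGroup V] [Module K V] [FiniteDimensional K V]
    {ι : Type w} (f : ι → Module.End K V) (s : Finset ι) :
    finrank K V ≤ finrank K (⨅ i ∈ s, LinearMap.ker (f i) : Submodule K V) +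
      ∑ i ∈ s, rk (f i) := by
  classical
  induction s using Finset.induction_on with
  | empty =>
    have h : (⨅ i ∈ (∅ : Finset ι), LinearMap.ker (f i) : Submodule K V) = ⊤ := by simp
    rw [h, finrank_top]
    exact Nat.le_add_right _ _
  | insert a s ha ih =>
    rw [Finset.sum_insert ha, Finset.iInf_insert]
    set B : Submodule K V := ⨅ i ∈ s, LinearMap.ker (f i) with hB
    have h1 := Submodule.finrank_sup_add_finrank_inf_eq (LinearMap.ker (f a)) B
    have h2 := rk_add_ker (f a)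
    have h3 : finrank K (LinearMap.ker (f a) ⊔ B : Submodule K V) ≤ finrank K V :=
      Submodule.finrank_le _
    omega

theorem rk_le_restrict {V : Type v} [AddCommGroup V] [Module K V] [FiniteDimensional K V]
    (U : Submodule K V) (T : Module.End K V) :
    rk T + finrank K U ≤ rk (T.comp U.subtype) + finrank K V := by
  have h1 := rk_add_ker T
  have h2 := rk_add_ker (T.comp U.subtype)
  have h3 : finrank K (LinearMap.ker (T.comp U.subtype)) ≤ finrank K (LinearMap.ker T) := by
    rw [← Submodule.finrank_map_subtype_eq U]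
    apply Submodule.finrank_mono
    rintro _ ⟨x, hx, rfl⟩
    exact hx
  omega

theorem avg_bound {G : Type v} [Group G] [Fintype G] (hP : HB K G) (V : Type u)
    [AddCommGroup V] [Module K V] [FiniteDimensional K V] (φ : G → (V ≃ₗ[K] V))
    (hV : 0 < finrank K V) (η : ℝ) (h : ∀ g k, dd (φ g * φ k) (φ (g * k)) ≤ η) :
    ∑ g, dd (φ g) (φ 1) ≤ (Fintype.card G : ℝ) / 2 + (Fintype.card G : ℝ) ^ 3 * η := by
  classical
  set N := Fintype.card G with hN
  set n := finrank K V with hn
  let E : G × G → Module.End K V := fun p =>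
    ((φ p.1 * φ p.2 : V ≃ₗ[K] V) : V →ₗ[K] V) - (φ (p.1 * p.2) : V →ₗ[K] V)
  let W : Submodule K V := ⨅ p ∈ (Finset.univ : Finset (G × G)), LinearMap.ker (E p)
  have hW : ∀ w ∈ W, ∀ g k, φ g (φ k w) = φ (g * k) w := by
    intro w hw g k
    have h1 : w ∈ LinearMap.ker (E (g, k)) := by
      simp only [W, Submodule.mem_iInf] at hw
      exact hw (g, k) (Finset.mem_univ _)
    rw [LinearMap.mem_ker] at h1
    exact sub_eq_zero.1 h1
  have hW1 : ∀ w ∈ W, φ 1 w = w := by
    intro w hw
    have h1 := hW w hw 1 1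
    rw [mul_one] at h1
    exact (φ 1).injective h1
  let U : Submodule K V := ⨆ g : G, W.map (φ g : V →ₗ[K] V)
  have hmemU : ∀ g, ∀ w ∈ W, φ g w ∈ U := by
    intro g w hw
    exact Submodule.mem_iSup_of_mem g ⟨w, hw, rfl⟩
  have hWU : W ≤ U := by
    intro w hw
    have := hmemU 1 w hw
    rwa [hW1 w hw] at this
  have hinv : ∀ g, ∀ x ∈ U, φ g x ∈ U := by
    intro g
    have : U ≤ U.comap (φ g : V →ₗ[K] V) := by
      apply iSup_le
      rintro k _ ⟨w, hw, rfl⟩
      show φ g (φ k w) ∈ U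
      rw [hW w hw]
      exact hmemU _ w hw
    exact this
  have hmul : ∀ g k, ∀ x ∈ U, φ g (φ k x) = φ (g * k) x := by
    intro g k
    have : U ≤ LinearMap.ker (E (g, k)) := by
      apply iSup_le
      rintro l _ ⟨w, hw, rfl⟩
      rw [LinearMap.mem_ker]
      show φ g (φ k (φ l w)) - φ (g * k) (φ l w) = 0
      rw [hW w hw, hW w hw, hW w hw, mul_assoc, sub_self]
    intro x hx
    exact sub_eq_zero.1 (LinearMap.mem_ker.1 (this hx))
  have hone : ∀ x ∈ U, φ 1 x = x := by
    intro x hx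
    have h1 := hmul 1 1 x hx
    rw [mul_one] at h1
    exact (φ 1).injective h1
  let ψ : G →* Module.End K U :=
    { toFun := fun g => (φ g : V →ₗ[K] V).restrict (hinv g)
      map_one' := by
        apply LinearMap.ext
        rintro ⟨x, hx⟩
        exact Subtype.ext (hone x hx)
      map_mul' := by
        intro g k
        apply LinearMap.ext
        rintro ⟨x, hx⟩
        exact Subtype.ext (hmul g k x hx).symm }
  have key : ∀ g, rk ((φ g : V →ₗ[K] V) - (φ 1 : V →ₗ[K] V)) + finrank K U ≤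
      rk (ψ g - 1) + n := by
    intro g
    have h1 := rk_le_restrict U ((φ g : V →ₗ[K] V) - (φ 1 : V →ₗ[K] V))
    have h2 : ((φ g : V →ₗ[K] V) - (φ 1 : V →ₗ[K] V)).comp U.subtype =
        U.subtype.comp (ψ g - 1) := by
      apply LinearMap.ext
      rintro ⟨x, hx⟩
      show φ g x - φ 1 x = φ g x - x
      rw [hone x hx]
    rw [h2, rk_subtype_comp] at h1
    exact h1
  have hcodim := codim_iInf_ker E Finset.univ
  have hUW : finrank K W ≤ finrank K U := Submodule.finrank_mono hWU
  have hUn : finrank K U ≤ n := Submodule.finrank_le U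
  have hE : ∀ p, (rk (E p) : ℝ) ≤ η * n := by
    intro p
    have h1 := h p.1 p.2
    have hn' : (0 : ℝ) < n := by exact_mod_cast hV
    have h2 : dd (φ p.1 * φ p.2) (φ (p.1 * p.2)) = (rk (E p) : ℝ) / n := rfl
    rw [h2, div_le_iff₀ hn'] at h1
    exact h1
  have hcod : (n : ℝ) - finrank K U ≤ (N : ℝ) ^ 2 * (η * n) := by
    have h1 : (n : ℝ) ≤ finrank K W + ∑ p : G × G, (rk (E p) : ℝ) := by exact_mod_cast hcodim
    have h2 : ∑ p : G × G, (rk (E p) : ℝ) ≤ ∑ _p : G × G, η * n :=
      Finset.sum_le_sum fun p _ => hE p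
    have h3 : ∑ _p : G × G, η * (n : ℝ) = (N : ℝ) ^ 2 * (η * n) := by
      rw [Finset.sum_const, Finset.card_univ, Fintype.card_prod, nsmul_eq_mul]
      push_cast
      ring
    have h4 : (finrank K W : ℝ) ≤ finrank K U := by exact_mod_cast hUW
    linarith
  have hIH := hP U ψ
  have hIH' : 2 * ∑ g, (rk (ψ g - 1) : ℝ) ≤ N * finrank K U := by exact_mod_cast hIH
  have hsum : ∑ g, (rk ((φ g : V →ₗ[K] V) - (φ 1 : V →ₗ[K] V)) : ℝ) ≤
      ∑ g, (rk (ψ g - 1) : ℝ) + N * ((n : ℝ) - finrank K U) := by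
    have h1 : ∀ g ∈ (Finset.univ : Finset G), (rk ((φ g : V →ₗ[K] V) - (φ 1 : V →ₗ[K] V)) : ℝ) ≤
        (rk (ψ g - 1) : ℝ) + ((n : ℝ) - finrank K U) := by
      intro g _
      have : (rk ((φ g : V →ₗ[K] V) - (φ 1 : V →ₗ[K] V)) : ℝ) + finrank K U ≤
        rk (ψ g - 1) + n := by exact_mod_cast key g
      linarith
    refine (Finset.sum_le_sum h1).trans (le_of_eq ?_)
    rw [Finset.sum_add_distrib, Finset.sum_const, Finset.card_univ, nsmul_eq_mul]
  have hn' : (0 : ℝ) < n := by exact_mod_cast hV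
  have hfin : ∑ g, dd (φ g) (φ 1) =
      (∑ g, (rk ((φ g : V →ₗ[K] V) - (φ 1 : V →ₗ[K] V)) : ℝ)) / n := by
    rw [Finset.sum_div]
    rfl
  rw [hfin, div_le_iff₀ hn']
  have hU' : (finrank K U : ℝ) ≤ n := by exact_mod_cast hUn
  have hN0 : (0 : ℝ) ≤ N := by positivity
  have h5 : (N : ℝ) * ((n : ℝ) - finrank K U) ≤ N * ((N : ℝ) ^ 2 * (η * n)) :=
    mul_le_mul_of_nonneg_left hcod hN0
  have h6 : (N : ℝ) * finrank K U ≤ N * n := mul_le_mul_of_nonneg_left hU' hN0
  have e : ((N : ℝ) / 2 + (N : ℝ) ^ 3 * η) * n = N * n / 2 + N * ((N : ℝ) ^ 2 * (η * n)) := by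
    ring
  rw [e]
  linarith

/-- The regular representation. -/
def regRep (K : Type u) [Field K] {G : Type v} [Group G] (g : G) : (G → K) ≃ₗ[K] (G → K) :=
  LinearEquiv.funCongrLeft K K (Equiv.mulLeft g⁻¹)

theorem regRep_apply {G : Type v} [Group G] (g : G) (f : G → K) (x : G) :
    regRep K g f x = f (g⁻¹ * x) := rfl

theorem regRep_mul {G : Type v} [Group G] (g h : G) :
    regRep K g * regRep K h = regRep K (g * h) := by
  apply LinearEquiv.ext
  intro f
  funext x
  show f (h⁻¹ * (g⁻¹ * x)) = f ((g * h)⁻¹ * x)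
  rw [mul_inv_rev, mul_assoc]

theorem dd_self {V : Type v} [AddCommGroup V] [Module K V] (A : V ≃ₗ[K] V) : dd A A = 0 := by
  have : rk ((A : V →ₗ[K] V) - (A : V →ₗ[K] V)) = 0 := by
    rw [sub_self]
    unfold rk
    rw [LinearMap.range_zero, finrank_bot]
  unfold dd
  rw [this]
  simp

theorem dd_regRep {G : Type v} [Group G] [Fintype G] (g h : G) (hgh : g ≠ h) :
    1 / (Fintype.card G : ℝ) ≤ dd (regRep K g) (regRep K h) := by
  classical
  unfold dd
  rw [Module.finrank_fintype_fun_eq_card]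
  apply div_le_div_of_nonneg_right _ (by positivity)
  have : 0 < rk ((regRep K g : (G → K) →ₗ[K] (G → K)) - (regRep K h : (G → K) →ₗ[K] (G → K))) := by
    unfold rk
    rw [Module.finrank_pos_iff_exists_ne_zero]
    refine ⟨⟨_, LinearMap.mem_range_self _ (Pi.single 1 1)⟩, ?_⟩
    intro h0
    have h1 := congrFun (congrArg Subtype.val h0) g
    have h2 : regRep K g (Pi.single 1 1 : G → K) g - regRep K h (Pi.single 1 1 : G → K) g = 0 := h1
    rw [regRep_apply, regRep_apply, inv_mul_cancel, Pi.single_eq_same,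
      Pi.single_eq_of_ne (by rw [ne_eq, inv_mul_eq_one]; exact fun h => hgh h.symm)] at h2
    simp at h2
  exact_mod_cast this

end Pool.Agent.H544R3
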