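import Mathlib

set_option autoImplicit false

namespace Pool.Agent.H544R3.SC

/-- combinatorial core: an odd cycle of length five forces a monochromatic transversal -/
theorem combi {E : Type*} [AddCommGroup E] (C : Fin 5 → ℕ → Set E) (cc : Fin 5 → ℕ → E)
    (hsum : ∀ r m, cc r m + cc (r+1) m + cc (r+1+1) m + cc (r+1+1+1) m + cc (r+1+1+1+1) m = 0)
    (hstep : ∀ r m l, m < l → ∃ t ∈ C (r+1) l, cc r m + t ∈ C r m)
    (c : E → Bool) :
    ∃ (r : Fin 5) (z : E) (α : Bool) (x : ℕ → E), ∀ m, x m ∈ C r m ∧ c (z + x m) = α := by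
  classical
  let Mono : ℕ → Fin 5 → E → Bool → Prop := fun j r z α =>
    ∃ x : ℕ → E, ∀ m, j ≤ m → x m ∈ C r m ∧ c (z + x m) = α
  have stepA : ∀ (r : Fin 5) (z : E) (i : ℕ) (α : Bool), (∀ x ∈ C r i, c (z + x) = α) →
      Mono (i+1) (r+1) (z + cc r i) α := by
    intro r z i α h
    have : ∀ l, ∃ t : E, i < l → (t ∈ C (r+1) l ∧ cc r i + t ∈ C r i) := by
      intro l
      by_cases hl : i < l
      · obtain ⟨t, ht, ht'⟩ := hstep r i l hl
        exact ⟨t, fun _ => ⟨ht, ht'⟩⟩
      · exact ⟨0, fun h => absurd h hl⟩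
    choose t ht using this
    refine ⟨t, fun m hm => ?_⟩
    obtain ⟨h1, h2⟩ := ht m hm
    refine ⟨h1, ?_⟩
    have := h _ h2
    rw [← add_assoc] at this
    exact this
  have hex : ∃ j, ∃ r z α, Mono j r z α := by
    by_cases h : ∃ J, ∀ m, J ≤ m → ∃ x ∈ C 0 m, c (0 + x) = true
    · obtain ⟨J, hJ⟩ := h
      have : ∀ m, ∃ x : E, J ≤ m → (x ∈ C 0 m ∧ c (0 + x) = true) := by
        intro m
        by_cases hm : J ≤ m
        · obtain ⟨x, hx, hx'⟩ := hJ m hm
          exact ⟨x, fun _ => ⟨hx, hx'⟩⟩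
        · exact ⟨0, fun h => absurd h hm⟩
      choose x hx using this
      exact ⟨J, 0, 0, true, x, hx⟩
    · push Not at h
      obtain ⟨m, -, hm⟩ := h 0
      refine ⟨m+1, 0+1, 0 + cc 0 m, false, stepA 0 0 m false ?_⟩
      intro x hx
      have := hm x hx
      simpa using this
  let j := Nat.find hex
  have hj : ∃ r z α, Mono j r z α := Nat.find_spec hex
  rcases Nat.eq_zero_or_pos j with h0 | hpos
  · obtain ⟨r, z, α, x, hx⟩ := hj
    exact ⟨r, z, α, x, fun m => hx m (by omega)⟩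
  · exfalso
    obtain ⟨i, hi⟩ : ∃ i, j = i + 1 := ⟨j - 1, by omega⟩
    have hmin : ∀ r z α, ¬ Mono i r z α := by
      intro r z α hM
      have := Nat.find_min hex (m := i) (by show i < j; omega)
      exact this ⟨r, z, α, hM⟩
    rw [hi] at hj
    have stepB : ∀ r z α, Mono (i+1) r z α → ∀ x ∈ C r i, c (z + x) = !α := by
      intro r z α hM x hx
      by_contra hne
      have hc : c (z + x) = α := by
        cases h1 : c (z + x) <;> cases α <;> simp_all
      apply hmin r z α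
      obtain ⟨y, hy⟩ := hM
      refine ⟨Function.update y i x, fun m hm => ?_⟩
      rcases eq_or_lt_of_le hm with h | h
      · subst h
        simp [hx, hc]
      · rw [Function.update_of_ne (by omega)]
        exact hy m h
    have stepC : ∀ r z α, Mono (i+1) r z α → Mono (i+1) (r+1) (z + cc r i) (!α) :=
      fun r z α hM => stepA r z i (!α) (stepB r z α hM)
    obtain ⟨r, z, α, hM⟩ := hj
    have h5 := stepC _ _ _ (stepC _ _ _ (stepC _ _ _ (stepC _ _ _ (stepC _ _ _ hM))))
    have hr : ∀ r : Fin 5, r+1+1+1+1+1 = r := by decide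
    have hz : z + cc r i + cc (r+1) i + cc (r+1+1) i + cc (r+1+1+1) i + cc (r+1+1+1+1) i = z := by
      have := hsum r i
      calc _ = z + (cc r i + cc (r+1) i + cc (r+1+1) i + cc (r+1+1+1) i + cc (r+1+1+1+1) i) := by abel
        _ = z := by rw [this, add_zero]
    rw [hr r, hz] at h5
    obtain ⟨t, ht, ht'⟩ := hstep r i (i+1) (by omega)
    have e1 := stepB r z α hM _ ht'
    have e2 := stepB r z _ h5 _ ht'
    rw [e1] at e2
    cases α <;> simp at e2

/-- reduction of the negated statement to a norm-like function -/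
theorem reduce (H : Type) [AddCommGroup H] [Module ℝ H] [FiniteDimensional ℝ H]
    (hd : 2 ≤ Module.finrank ℝ H) (N : H → ℝ) (h0 : ∀ x, 0 ≤ N x)
    (h1 : ∀ (c : ℝ) x, N (c • x) = |c| * N x) (h2 : ∀ x y, N (x + y) ≤ N x + N y)
    (h3 : ∀ x, N x = 0 → x = 0)
    (h4 : ∀ x y, N x = 1 → N y = 1 → N (x + y) = 2 → x = y)
    (X : ℕ → H) (hX : Function.Injective X)
    (hc : ∀ c : H → Fin 2, ∃ g : ℕ → H, (∀ i j, N (g i - g j) = N (X i - X j)) ∧
      ∀ i j, c (g i) = c (g j)) :
    ¬ (∀ (E : Type) [NormedAddCommGroup E] [NormedSpace ℝ E] [FiniteDimensional ℝ E]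
      [StrictConvexSpace ℝ E],
      2 ≤ Module.finrank ℝ E →
      ∀ M : Set E, M.Infinite →
        (∃ c : E → Fin 2, ∀ f : E → E,
            (∀ x ∈ M, ∀ y ∈ M, dist (f x) (f y) = dist x y) →
            ∃ x ∈ M, ∃ y ∈ M, c (f x) ≠ c (f y)) ∧
        ¬ (∃ c : E → Fin 1, ∀ f : E → E,
            (∀ x ∈ M, ∀ y ∈ M, dist (f x) (f y) = dist x y) →
            ∃ x ∈ M, ∃ y ∈ M, c (f x) ≠ c (f y))) := by
  intro hall
  letI : Norm H := ⟨N⟩
  have core : NormedSpace.Core ℝ H :=
    { norm_nonneg := h0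
      norm_smul := fun c x => h1 c x
      norm_triangle := h2
      norm_eq_zero_iff := fun x => ⟨h3 x, fun hx => by
        subst hx
        have h := h1 0 (0 : H)
        rw [abs_zero, zero_mul, zero_smul] at h
        exact h⟩ }
  letI i1 : NormedAddCommGroup H := NormedAddCommGroup.ofCore core
  letI i2 : NormedSpace ℝ H := NormedSpace.ofCore core
  haveI i3 : StrictConvexSpace ℝ H := by
    apply StrictConvexSpace.of_norm_add_ne_two
    intro x y hx hy hxy h
    exact hxy (h4 x y hx hy h)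
  obtain ⟨⟨c, hcol⟩, -⟩ := hall H hd (Set.range X) (Set.infinite_range_of_injective hX)
  obtain ⟨g, hg1, hg2⟩ := hc c
  classical
  let f : H → H := fun x => if h : ∃ i, X i = x then g (Classical.choose h) else x
  have hf : ∀ i, f (X i) = g i := by
    intro i
    have h : ∃ j, X j = X i := ⟨i, rfl⟩
    have : f (X i) = g (Classical.choose h) := by simp only [f, dif_pos h]
    rw [this]
    congr 1
    exact hX (Classical.choose_spec h)
  obtain ⟨x, ⟨i, rfl⟩, y, ⟨j, rfl⟩, hne⟩ := hcol f (by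
    rintro x ⟨i, rfl⟩ y ⟨j, rfl⟩
    rw [hf, hf, dist_eq_norm, dist_eq_norm]
    exact hg1 i j)
  apply hne
  rw [hf, hf]
  exact hg2 i j

end Pool.Agent.H544R3.SC
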