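import Mathlib

set_option autoImplicit false

namespace Pool.Agent.H544R3.SC
open scoped RealInnerProductSpace

variable {H : Type} [NormedAddCommGroup H] [InnerProductSpace ℝ H] {ι : Type}

/-- the strictly convex norm -/
noncomputable def NN (κ : ℝ) (p : ι → H → ℝ) (x : H) : ℝ := κ * ‖x‖ + ⨆ i, |p i x|

structure Fam (p : ι → H → ℝ) (R : ℝ) : Prop where
  add : ∀ i x y, p i (x+y) = p i x + p i y
  smul : ∀ i (c : ℝ) x, p i (c•x) = c * p i x
  bd : ∀ i x, |p i x| ≤ R * ‖x‖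

variable {p : ι → H → ℝ} {R κ : ℝ}

lemma Fam.bdd (hp : Fam p R) (x : H) : BddAbove (Set.range fun i => |p i x|) :=
  ⟨R * ‖x‖, by rintro _ ⟨i, rfl⟩; exact hp.bd i x⟩

lemma Fam.le (hp : Fam p R) (x : H) (i : ι) : |p i x| ≤ ⨆ i, |p i x| :=
  le_ciSup (hp.bdd x) i

lemma NN_nonneg (hκ : 0 < κ) (x : H) : 0 ≤ NN κ p x := by
  unfold NN
  have : 0 ≤ ⨆ i, |p i x| := Real.iSup_nonneg (fun i => abs_nonneg _)
  positivity

lemma NN_smul (hp : Fam p R) (c : ℝ) (x : H) : NN κ p (c • x) = |c| * NN κ p x := by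
  unfold NN
  have : (⨆ i, |p i (c • x)|) = |c| * ⨆ i, |p i x| := by
    rw [Real.mul_iSup_of_nonneg (abs_nonneg c)]
    congr 1
    ext i
    rw [hp.smul, abs_mul]
  rw [this, norm_smul, Real.norm_eq_abs]
  ring

lemma sup_add [Nonempty ι] (hp : Fam p R) (x y : H) :
    (⨆ i, |p i (x + y)|) ≤ (⨆ i, |p i x|) + ⨆ i, |p i y| := by
  apply ciSup_le
  intro i
  rw [hp.add]
  exact (abs_add_le _ _).trans (add_le_add (hp.le x i) (hp.le y i))

lemma NN_add [Nonempty ι] (hp : Fam p R) (hκ : 0 < κ) (x y : H) :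
    NN κ p (x + y) ≤ NN κ p x + NN κ p y := by
  unfold NN
  have h1 := sup_add hp x y
  have h2 := norm_add_le x y
  have h3 := mul_le_mul_of_nonneg_left h2 hκ.le
  linarith

lemma NN_zero (hκ : 0 < κ) (x : H) (h : NN κ p x = 0) : x = 0 := by
  unfold NN at h
  have h1 : 0 ≤ ⨆ i, |p i x| := Real.iSup_nonneg (fun i => abs_nonneg _)
  have h2 : 0 ≤ κ * ‖x‖ := by positivity
  have h3 : κ * ‖x‖ = 0 := by linarith
  have h4 : ‖x‖ = 0 := by
    rcases mul_eq_zero.mp h3 with h | h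
    · linarith
    · exact h
  exact norm_eq_zero.mp h4

lemma NN_strict [Nonempty ι] (hp : Fam p R) (hκ : 0 < κ) (x y : H)
    (hx : NN κ p x = 1) (hy : NN κ p y = 1) (hxy : NN κ p (x + y) = 2) : x = y := by
  have h1 := sup_add hp x y
  have h2 := norm_add_le x y
  have h3 : κ * ‖x + y‖ ≤ κ * (‖x‖ + ‖y‖) := mul_le_mul_of_nonneg_left h2 hκ.le
  have h4 : κ * ‖x + y‖ = κ * (‖x‖ + ‖y‖) := by
    unfold NN at hx hy hxy
    nlinarith
  have h5 : ‖x + y‖ = ‖x‖ + ‖y‖ := mul_left_cancel₀ hκ.ne' h4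
  have h6 : SameRay ℝ x y := sameRay_iff_norm_add.mpr h5
  have hx0 : x ≠ 0 := by
    rintro rfl
    have := NN_smul (κ := κ) hp 0 (0 : H)
    rw [zero_smul, abs_zero, zero_mul] at this
    rw [this] at hx
    norm_num at hx
  have hy0 : y ≠ 0 := by
    rintro rfl
    have := NN_smul (κ := κ) hp 0 (0 : H)
    rw [zero_smul, abs_zero, zero_mul] at this
    rw [this] at hy
    norm_num at hy
  obtain ⟨r, hr, hr2⟩ := h6.exists_pos_left hx0 hy0
  rw [← hr2, NN_smul hp, hx, abs_of_pos hr] at hy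
  have : r = 1 := by linarith
  rw [← hr2, this, one_smul]

lemma NN_eq [Nonempty ι] (hp : Fam p R) (v : H) (d : ℝ) (h : ∀ i, |p i v| + κ * ‖v‖ ≤ d)
    (i₀ : ι) (h0 : p i₀ v + κ * ‖v‖ = d) : NN κ p v = d := by
  apply le_antisymm
  · unfold NN
    have : (⨆ i, |p i v|) ≤ d - κ * ‖v‖ := ciSup_le fun i => by linarith [h i]
    linarith
  · unfold NN
    have h1 := hp.le v i₀
    have h2 := le_abs_self (p i₀ v)
    linarith

/-- the deviation estimate -/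
lemma dev (u v : H) (s t : ℝ) (hs : 0 < s) (ht : 0 < t) (hu : t ≤ s * ‖u‖) :
    ‖v‖ - ⟪u, v⟫ / ‖u‖ ≤ ‖v - s • u‖ ^ 2 / (2 * t) := by
  have hun : 0 < ‖u‖ := by
    by_contra h
    have : ‖u‖ = 0 := le_antisymm (not_lt.mp h) (norm_nonneg _)
    rw [this] at hu
    linarith
  set A := s * ‖u‖ with hA
  have hApos : 0 < A := by positivity
  have key : ‖v‖ - ⟪u, v⟫ / ‖u‖ ≤ ‖v - s • u‖ ^ 2 / (2 * A) := by
    have h1 : ‖v - s • u‖ ^ 2 = ‖v‖ ^ 2 - 2 * s * ⟪u, v⟫ + A ^ 2 := by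
      rw [@norm_sub_sq_real, norm_smul, inner_smul_right, real_inner_comm, Real.norm_eq_abs,
        abs_of_pos hs]
      ring
    rw [h1]
    rw [le_div_iff₀ (by positivity)]
    have h2 : (‖v‖ - ⟪u, v⟫ / ‖u‖) * (2 * A) = 2 * A * ‖v‖ - 2 * s * ⟪u, v⟫ := by
      rw [hA]; field_simp
    rw [h2]
    nlinarith [sq_nonneg (‖v‖ - A)]
  refine key.trans ?_
  apply div_le_div_of_nonneg_left (by positivity) (by positivity)
  linarith

end Pool.Agent.H544R3.SC
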