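import Mathlib

set_option autoImplicit false

namespace Pool.Agent.H544R3.SC
open scoped RealInnerProductSpace

abbrev HH := EuclideanSpace ℝ (Fin 5 × Fin 8)

noncomputable def Gf : Fin 5 → ℝ := ![1, 0, -1/2, -1/2, 0]
noncomputable def GG (r s : Fin 5) : ℝ := Gf (r - s)

noncomputable def Ev (s : Fin 5) : HH := WithLp.toLp 2 (fun q => if q.2 = 0 then GG q.1 s else 0)
noncomputable def Bv (s : Fin 5) : HH := WithLp.toLp 2 (fun q => if q.2 = 1 then GG q.1 s else 0)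
noncomputable def Wv (s : Fin 5) (i : Fin 8) : HH := EuclideanSpace.single (s, i) 1

noncomputable def cv (a : ℝ) (s : Fin 5) : HH := a ^ 7 • Ev s + a ^ 9 • Bv s
noncomputable def psi (a b : ℝ) (s : Fin 5) : HH :=
  b ^ 12 • (Wv s 2 + a • Wv s 3 + a ^ 2 • Wv s 4) +
    b ^ 13 • (Wv s 5 + a • Wv s 6 + a ^ 2 • Wv s 7)

structure Cf where
  A : ℝ
  B : ℝ
  eM : ℝ
  eL : ℝ
  Ax : ℝ
  Ay : ℝ
  X0 : ℝ
  X1 : ℝ
  X2 : ℝ
  Y0 : ℝ
  Y1 : ℝ
  Y2 : ℝ

noncomputable def Pf (r : Fin 5) (c : Cf) (x : HH) : ℝ :=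
  c.A * x (r, 0) + c.B * x (r, 1) + (-c.Ax * c.eL - c.Ay * c.eM) * x (r+1, 2)
    + (c.Ax + c.Ay) * x (r+1, 3) + (c.eL + c.eM) * x (r+1, 5) - 2 * x (r+1, 6)
    + (-c.X0 * c.eL - c.Y0 * c.eM) * x (r, 2) + (-c.X1 * c.eL - c.Y1 * c.eM) * x (r, 3)
    + (-c.X2 * c.eL - c.Y2 * c.eM) * x (r, 4) + (c.X0 + c.Y0) * x (r, 5)
    + (c.X1 + c.Y1) * x (r, 6) + (c.X2 + c.Y2) * x (r, 7)

lemma Pf_add (r : Fin 5) (c : Cf) (x y : HH) : Pf r c (x + y) = Pf r c x + Pf r c y := by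
  simp only [Pf, PiLp.add_apply]; ring

lemma Pf_smul (r : Fin 5) (c : Cf) (t : ℝ) (x : HH) : Pf r c (t • x) = t * Pf r c x := by
  simp only [Pf, PiLp.smul_apply, smul_eq_mul]; ring

lemma Pf_sub (r : Fin 5) (c : Cf) (x y : HH) : Pf r c (x - y) = Pf r c x - Pf r c y := by
  simp only [Pf, PiLp.sub_apply]; ring

lemma Ev_apply (s r : Fin 5) (i : Fin 8) : Ev s (r, i) = if i = 0 then GG r s else 0 := rfl
lemma Bv_apply (s r : Fin 5) (i : Fin 8) : Bv s (r, i) = if i = 1 then GG r s else 0 := rfl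
lemma Wv_apply (s r : Fin 5) (i j : Fin 8) : Wv s i (r, j) = if r = s ∧ j = i then 1 else 0 := by
  simp [Wv, Prod.ext_iff]

lemma cv_apply (a : ℝ) (s r : Fin 5) (i : Fin 8) :
    cv a s (r, i) = if i = 0 then a ^ 7 * GG r s else if i = 1 then a ^ 9 * GG r s else 0 := by
  simp only [cv, PiLp.add_apply, PiLp.smul_apply, Ev_apply, Bv_apply, smul_eq_mul]
  by_cases h0 : i = 0
  · subst h0; simp
  · by_cases h1 : i = 1
    · subst h1; simp
    · simp [h0, h1]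

lemma Pf_cv (r : Fin 5) (c : Cf) (a : ℝ) (s : Fin 5) :
    Pf r c (cv a s) = GG r s * (c.A * a ^ 7 + c.B * a ^ 9) := by
  simp only [Pf, cv_apply]
  simp
  ring

lemma fin5_ne (r : Fin 5) : r + 1 ≠ r := by revert r; decide

lemma psi_apply (a b : ℝ) (s r : Fin 5) (j : Fin 8) :
    psi a b s (r, j) = if r = s then
      (b ^ 12 * ((if j = 2 then 1 else 0) + a * (if j = 3 then 1 else 0) + a ^ 2 * (if j = 4 then 1 else 0))
       + b ^ 13 * ((if j = 5 then 1 else 0) + a * (if j = 6 then 1 else 0) + a ^ 2 * (if j = 7 then 1 else 0))) else 0 := by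
  simp only [psi, PiLp.add_apply, PiLp.smul_apply, Wv_apply, smul_eq_mul]
  by_cases h : r = s
  · simp [h]
  · simp [h]

lemma Pf_psi_row (r : Fin 5) (c : Cf) (a b : ℝ) :
    Pf r c (psi a b (r+1)) = b ^ 12 * ((c.Ax - b) * (a - c.eL) - (c.Ay - b) * (c.eM - a)) := by
  have h : ¬ (r = r + 1) := fun h => fin5_ne r h.symm
  simp only [Pf, psi_apply, if_neg h, if_true]
  simp
  ring

lemma Pf_psi_col (r : Fin 5) (c : Cf) (a b : ℝ) :
    Pf r c (psi a b r) = b ^ 12 * ((c.X0 + c.X1 * a + c.X2 * a ^ 2) * (b - c.eL)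
      - (c.Y0 + c.Y1 * a + c.Y2 * a ^ 2) * (c.eM - b)) := by
  have h : ¬ (r + 1 = r) := fin5_ne r
  simp only [Pf, psi_apply, if_neg h, if_true]
  simp
  ring

lemma Pf_psi_other (r s : Fin 5) (c : Cf) (a b : ℝ) (h1 : s ≠ r) (h2 : s ≠ r + 1) :
    Pf r c (psi a b s) = 0 := by
  simp only [Pf, psi_apply, if_neg (Ne.symm h1), if_neg (Ne.symm h2)]
  ring

lemma GG_self (r : Fin 5) : GG r r = 1 := by simp [GG, Gf]
lemma GG_succ (r : Fin 5) : GG r (r+1) = 0 := by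
  have : r - (r+1) = 4 := by revert r; decide
  simp [GG, this, Gf]
lemma GG_ne (r s : Fin 5) (h : s ≠ r) : |GG r s| ≤ 1/2 := by
  have h1 : r - s ≠ 0 := sub_ne_zero.mpr (Ne.symm h)
  unfold GG
  generalize r - s = t at h1
  fin_cases t <;> simp [Gf] at h1 ⊢ <;> norm_num [abs_le]
lemma GG_le (r s : Fin 5) : |GG r s| ≤ 1 := by
  by_cases h : s = r
  · subst h; rw [GG_self]; simp
  · have := GG_ne r s h; linarith

lemma coord_le (x : HH) (q : Fin 5 × Fin 8) : |x q| ≤ ‖x‖ := by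
  have := PiLp.norm_apply_le x q
  rwa [Real.norm_eq_abs] at this

lemma norm_Wv (s : Fin 5) (i : Fin 8) : ‖Wv s i‖ = 1 := by
  simp [Wv]

lemma norm_Ev (s : Fin 5) : ‖Ev s‖ ≤ 2 := by
  have h : ‖Ev s‖ ^ 2 ≤ 2 ^ 2 := by
    rw [EuclideanSpace.norm_sq_eq, Fintype.sum_prod_type]
    simp only [Ev_apply]
    have : ∀ x : Fin 5, ∑ x_1 : Fin 8, ‖(if x_1 = 0 then GG x s else 0 : ℝ)‖ ^ 2 = ‖GG x s‖ ^ 2 := by
      intro x
      rw [Finset.sum_eq_single 0]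
      · simp
      · intro b _ hb; simp [hb]
      · simp
    simp only [this]
    calc ∑ x : Fin 5, ‖GG x s‖ ^ 2 = ∑ x : Fin 5, ‖Gf x‖ ^ 2 := by
          apply Fintype.sum_bijective (fun x => x - s) (Equiv.subRight s).bijective
          intro x; rfl
      _ ≤ 2 ^ 2 := by
          simp [Fin.sum_univ_succ, Gf]; norm_num
  exact (abs_le_of_sq_le_sq' h (by norm_num)).2

lemma norm_Bv (s : Fin 5) : ‖Bv s‖ ≤ 2 := by
  have h : ‖Bv s‖ ^ 2 ≤ 2 ^ 2 := by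
    rw [EuclideanSpace.norm_sq_eq, Fintype.sum_prod_type]
    simp only [Bv_apply]
    have : ∀ x : Fin 5, ∑ x_1 : Fin 8, ‖(if x_1 = 1 then GG x s else 0 : ℝ)‖ ^ 2 = ‖GG x s‖ ^ 2 := by
      intro x
      rw [Finset.sum_eq_single 1]
      · simp
      · intro b _ hb; simp [hb]
      · simp
    simp only [this]
    calc ∑ x : Fin 5, ‖GG x s‖ ^ 2 = ∑ x : Fin 5, ‖Gf x‖ ^ 2 := by
          apply Fintype.sum_bijective (fun x => x - s) (Equiv.subRight s).bijective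
          intro x; rfl
      _ ≤ 2 ^ 2 := by
          simp [Fin.sum_univ_succ, Gf]; norm_num
  exact (abs_le_of_sq_le_sq' h (by norm_num)).2

lemma Ev_sum (r : Fin 5) : Ev r + Ev (r+1) + Ev (r+1+1) + Ev (r+1+1+1) + Ev (r+1+1+1+1) = 0 := by
  ext ⟨t, i⟩
  simp only [PiLp.add_apply, Ev_apply, PiLp.zero_apply]
  by_cases h : i = 0
  · simp only [h, if_true, GG]
    fin_cases r <;> fin_cases t <;> simp [Gf] <;> norm_num
  · simp [h]

lemma Bv_sum (r : Fin 5) : Bv r + Bv (r+1) + Bv (r+1+1) + Bv (r+1+1+1) + Bv (r+1+1+1+1) = 0 := by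
  ext ⟨t, i⟩
  simp only [PiLp.add_apply, Bv_apply, PiLp.zero_apply]
  by_cases h : i = 1
  · simp only [h, if_true, GG]
    fin_cases r <;> fin_cases t <;> simp [Gf] <;> norm_num
  · simp [h]

lemma cv_sum (a : ℝ) (r : Fin 5) :
    cv a r + cv a (r+1) + cv a (r+1+1) + cv a (r+1+1+1) + cv a (r+1+1+1+1) = 0 := by
  have h1 := Ev_sum r
  have h2 := Bv_sum r
  simp only [cv]
  calc _ = a ^ 7 • (Ev r + Ev (r+1) + Ev (r+1+1) + Ev (r+1+1+1) + Ev (r+1+1+1+1)) +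
      a ^ 9 • (Bv r + Bv (r+1) + Bv (r+1+1) + Bv (r+1+1+1) + Bv (r+1+1+1+1)) := by
        module
    _ = 0 := by rw [h1, h2]; simp

end Pool.Agent.H544R3.SC
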