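import Pool.Agent.H544R3.SCB
import Pool.Agent.H544R3.SCC

set_option autoImplicit false

namespace Pool.Agent.H544R3.SC
open scoped RealInnerProductSpace

structure Eps (e : ℕ → ℝ) : Prop where
  pos : ∀ n, 0 < e n
  small : ∀ n, e n ≤ 1/1000
  fast : ∀ m l, m < l → e l ≤ (e m)^20

variable {e : ℕ → ℝ}

lemma Eps.le1 (he : Eps e) (n : ℕ) : e n ≤ 1 := (he.small n).trans (by norm_num)

/-- handy form of the decay: `e l ≤ (e m)^k / 1000^(20-k)` -/
lemma Eps.fast' (he : Eps e) {m l : ℕ} (h : m < l) (k : ℕ) (hk : k ≤ 20) :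
    e l ≤ (e m)^k * (1/1000)^(20-k) := by
  have h1 := he.fast m l h
  have h2 : (e m)^20 = (e m)^k * (e m)^(20-k) := by rw [← pow_add]; congr 1; omega
  rw [h2] at h1
  refine h1.trans ?_
  have := he.pos m
  apply mul_le_mul_of_nonneg_left _ (by positivity)
  exact pow_le_pow_left₀ this.le (he.small m) _

noncomputable def fv (e : ℕ → ℝ) (r : Fin 5) (n j : ℕ) : HH :=
  if n < j then cv (e j) (r+1) + psi (e n) (e j) (r+1) else psi (e j) (e n) r
noncomputable def pt (e : ℕ → ℝ) (r : Fin 5) (n j : ℕ) : HH := cv (e n) r + fv e r n j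

noncomputable def Axf (e : ℕ → ℝ) (n j : ℕ) : ℝ := if n < j then 3/2 * e j else 0
noncomputable def X0f (e : ℕ → ℝ) (n j : ℕ) : ℝ := if n < j then -1 else 1 - (e j)^2
noncomputable def X1f (e : ℕ → ℝ) (n j : ℕ) : ℝ := if n < j then 0 else 2 * e j
noncomputable def X2f (n j : ℕ) : ℝ := if n < j then 0 else -1

noncomputable def val (e : ℕ → ℝ) (n j j2 : ℕ) : ℝ :=
  if n < j2 then (e j2)^12 * (Axf e n j - e j2)
  else (e n)^12 * (X0f e n j + X1f e n j * e j2 + X2f n j * (e j2)^2)

noncomputable def Ac (e : ℕ → ℝ) (m l : ℕ) : ℝ := 1 - (1/4 + 3/8 * e l) * (e m)^4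
noncomputable def gh (e : ℕ → ℝ) (m l : ℕ) : ℝ := 1 - (1/4 + e l/4) * (e m)^4
noncomputable def dd (e : ℕ → ℝ) (m l : ℕ) : ℝ := (e m)^7 * (1 + (e m)^4) - (e l)^7 * gh e m l
noncomputable def Bc (e : ℕ → ℝ) (m l j j' : ℕ) : ℝ :=
  (dd e m l - Ac e m l * ((e m)^7 - (e l)^7) - (e m - e l) * (val e m j j + val e l j' j')) /
    ((e m)^9 - (e l)^9)

noncomputable def cf (e : ℕ → ℝ) (m l j j' : ℕ) : Cf where
  A := Ac e m l
  B := Bc e m l j j'
  eM := e m
  eL := e l
  Ax := Axf e m j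
  Ay := Axf e l j'
  X0 := X0f e m j
  X1 := X1f e m j
  X2 := X2f m j
  Y0 := X0f e l j'
  Y1 := X1f e l j'
  Y2 := X2f l j'

lemma Pf_fv_m (r : Fin 5) (m l j j' j2 : ℕ) :
    Pf r (cf e m l j j') (fv e r m j2) = (e m - e l) * val e m j j2 := by
  unfold fv val
  by_cases h : m < j2
  · rw [if_pos h, if_pos h, Pf_add, Pf_cv, GG_succ, Pf_psi_row]
    simp only [cf]; ring
  · rw [if_neg h, if_neg h, Pf_psi_col]
    simp only [cf]; ring

lemma Pf_fv_l (r : Fin 5) (m l j j' j2 : ℕ) :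
    Pf r (cf e m l j j') (fv e r l j2) = -(e m - e l) * val e l j' j2 := by
  unfold fv val
  by_cases h : l < j2
  · rw [if_pos h, if_pos h, Pf_add, Pf_cv, GG_succ, Pf_psi_row]
    simp only [cf]; ring
  · rw [if_neg h, if_neg h, Pf_psi_col]
    simp only [cf]; ring

lemma Axf_bd (he : Eps e) (n j : ℕ) : 0 ≤ Axf e n j ∧ Axf e n j ≤ 1/2 := by
  unfold Axf
  have h1 := he.pos j
  have h2 := he.small j
  split_ifs
  · constructor <;> linarith
  · norm_num

lemma Xf_bd (he : Eps e) (n j : ℕ) (a : ℝ) (ha0 : 0 ≤ a) (ha1 : a ≤ 1/2) :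
    |X0f e n j + X1f e n j * a + X2f n j * a^2| ≤ 1 := by
  unfold X0f X1f X2f
  have h1 := he.pos j
  have h2 := he.small j
  split_ifs
  · simp
  · rw [abs_le]
    constructor <;> nlinarith [sq_nonneg (a - e j)]

lemma Pf_psi_bd (he : Eps e) (r s : Fin 5) (m l j j' : ℕ) (a b : ℝ) (ha0 : 0 ≤ a) (ha1 : a ≤ 1/2)
    (hb0 : 0 ≤ b) (hb1 : b ≤ 1/2) :
    |Pf r (cf e m l j j') (psi a b s)| ≤ 2 * b^12 := by
  have hm0 := he.pos m
  have hm1 := he.small m
  have hl0 := he.pos l
  have hl1 := he.small l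
  have hb : 0 ≤ b^12 := by positivity
  have habs : ∀ u v w z : ℝ, |u| ≤ 1 → |v| ≤ 1 → |w| ≤ 1 → |z| ≤ 1 → |b^12 * (u * v - w * z)| ≤ 2 * b^12 := by
    intro u v w z hu hv hw hz
    rw [abs_mul, abs_of_nonneg hb]
    have h1 : |u * v| ≤ 1 := by
      rw [abs_mul]; exact mul_le_one₀ hu (abs_nonneg _) hv
    have h2 : |w * z| ≤ 1 := by
      rw [abs_mul]; exact mul_le_one₀ hw (abs_nonneg _) hz
    have h3 : |u * v - w * z| ≤ 2 := by
      have := abs_sub (u*v) (w*z)
      linarith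
    nlinarith
  by_cases h1 : s = r + 1
  · subst h1
    rw [Pf_psi_row]
    have hx := Axf_bd he m j
    have hy := Axf_bd he l j'
    apply habs <;> rw [abs_le] <;> constructor <;> simp only [cf] <;> linarith
  · by_cases h2 : s = r
    · subst h2
      rw [Pf_psi_col]
      apply habs
      · exact Xf_bd he m j a ha0 ha1
      · rw [abs_le]; constructor <;> simp only [cf] <;> linarith
      · exact Xf_bd he l j' a ha0 ha1
      · rw [abs_le]; constructor <;> simp only [cf] <;> linarith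
    · rw [Pf_psi_other r s _ a b h2 h1]
      simp
      positivity

lemma val_self (n j : ℕ) (h : j ≠ n) :
    val e n j j = if n < j then 1/2 * (e j)^13 else (e n)^12 := by
  unfold val Axf X0f X1f X2f
  split_ifs <;> ring

lemma val_self_bd (he : Eps e) (n j : ℕ) (h : j ≠ n) :
    0 ≤ val e n j j ∧ val e n j j ≤ (e n)^12 := by
  rw [val_self n j h]
  have hn := he.pos n
  have hj := he.pos j
  have hj1 := he.small j
  split_ifs with h1
  · constructor
    · positivity
    · have h2 : e j ≤ e n := by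
        have := he.fast' h1 1 (by norm_num)
        have h3 : (e n)^1 * (1/1000)^(20-1) ≤ e n := by
          rw [pow_one]
          exact mul_le_of_le_one_right hn.le (by norm_num)
        linarith
      calc 1/2 * (e j)^13 = (e j)^12 * (1/2 * e j) := by ring
        _ ≤ (e n)^12 * 1 := by
            apply mul_le_mul
            · exact pow_le_pow_left₀ hj.le h2 _
            · linarith
            · positivity
            · positivity
        _ = _ := by ring
  · constructor
    · positivity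
    · exact le_rfl

end Pool.Agent.H544R3.SC
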