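import Pool.Agent.H544R3.SCD

set_option autoImplicit false

namespace Pool.Agent.H544R3.SC
open scoped RealInnerProductSpace

variable {e : ℕ → ℝ}

lemma Eps.lt (he : Eps e) {m l : ℕ} (h : m < l) : e l ≤ e m * (1/1000) := by
  have h1 := he.fast' h 1 (by norm_num)
  have h2 := he.pos m
  refine h1.trans ?_
  rw [pow_one]
  apply mul_le_mul_of_nonneg_left _ h2.le
  norm_num

lemma Eps.lt2 (he : Eps e) {m l : ℕ} (h : m < l) (a b : ℕ) (ha : 0 < a) (hb : b ≤ 19) :
    (e l)^a ≤ (e m)^b * (1/1000) := by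
  have h2 := he.pos m
  have h3 := he.pos l
  have h1 := he.fast' h b (by omega)
  have h4 : (e l)^a ≤ e l := by
    calc (e l)^a ≤ (e l)^1 := pow_le_pow_of_le_one h3.le (he.le1 l) ha
      _ = e l := pow_one _
  refine h4.trans (h1.trans ?_)
  apply mul_le_mul_of_nonneg_left _ (by positivity)
  calc ((1:ℝ)/1000)^(20-b) ≤ (1/1000)^1 := pow_le_pow_of_le_one (by norm_num) (by norm_num) (by omega)
    _ = 1/1000 := pow_one _

lemma Eps.pw (he : Eps e) (n a b : ℕ) (h : a < b) : (e n)^b ≤ (e n)^a * (1/1000) := by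
  have h0 := he.pos n
  have h1 := he.small n
  obtain ⟨c, rfl⟩ : ∃ c, b = a + 1 + c := ⟨b - a - 1, by omega⟩
  calc (e n)^(a+1+c) = (e n)^a * (e n) * (e n)^c := by ring
    _ ≤ (e n)^a * (1/1000) * 1 := by
        apply mul_le_mul
        · exact mul_le_mul_of_nonneg_left h1 (by positivity)
        · exact pow_le_one₀ h0.le (he.le1 n)
        · positivity
        · positivity
    _ = _ := by ring

lemma Bc_bd (he : Eps e) {m l j j' : ℕ} (h : m < l) (hj : j ≠ m) (hj' : j' ≠ l) :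
    0 ≤ Bc e m l j j' ∧ Bc e m l j j' ≤ 2 * (e m)^2 := by
  have hv1 := val_self_bd he m j hj
  have hv2 := val_self_bd he l j' hj'
  set v := val e m j j + val e l j' j' with hv
  have hx := he.pos m
  have hy := he.pos l
  have hx1 := he.small m
  have hy1 := he.small l
  have hyx := he.lt h
  have f1 := he.lt2 h 8 7 (by norm_num) (by norm_num)
  have f2 := he.lt2 h 12 12 (by norm_num) (by norm_num)
  have f3 := he.lt2 h 9 9 (by norm_num) (by norm_num)
  have f4 := he.pw m 11 13 (by norm_num)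
  have hD : 0 < (e m)^9 - (e l)^9 := by
    have : 0 < (e m)^9 := by positivity
    nlinarith
  have hnum : dd e m l - Ac e m l * ((e m)^7 - (e l)^7) - (e m - e l) * v
      = (e m)^11 * (5/4 + 3/8 * e l) - (e l)^8 * (e m)^4/8 - (e m - e l) * v := by
    unfold dd Ac gh; ring
  have hv0 : 0 ≤ v := by linarith
  have hvx : v ≤ 2 * (e m)^12 := by
    have : 0 < (e m)^12 := by positivity
    linarith
  have hsv : (e m - e l) * v ≤ 2 * (e m)^13 := by
    calc (e m - e l) * v ≤ e m * (2 * (e m)^12) := by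
          apply mul_le_mul _ hvx hv0 hx.le
          linarith
      _ = _ := by ring
  have hsv0 : 0 ≤ (e m - e l) * v := mul_nonneg (by linarith) hv0
  have g1 : (e l)^8 * (e m)^4 ≤ (e m)^11 * (1/1000) := by
    calc (e l)^8 * (e m)^4 ≤ ((e m)^7 * (1/1000)) * (e m)^4 :=
          mul_le_mul_of_nonneg_right f1 (by positivity)
      _ = _ := by ring
  have hx11 : 0 < (e m)^11 := by positivity
  have hy8 : 0 ≤ (e l)^8 * (e m)^4 := by positivity
  have hxy : (e m)^11 * (e l) ≤ (e m)^11 * (1/1000) := mul_le_mul_of_nonneg_left hy1 hx11.le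
  have hxy0 : 0 ≤ (e m)^11 * (e l) := by positivity
  unfold Bc
  rw [← hv, hnum]
  constructor
  · apply div_nonneg _ hD.le
    nlinarith
  · rw [div_le_iff₀ hD]
    have : 2 * (e m)^2 * ((e m)^9 - (e l)^9) ≥ (e m)^11 * (3/2) := by
      have h3 : (e m)^2 * (e l)^9 ≤ (e m)^2 * ((e m)^9 * (1/1000)) :=
        mul_le_mul_of_nonneg_left f3 (by positivity)
      have h4 : (e m)^2 * ((e m)^9 * (1/1000)) = (e m)^11 * (1/1000) := by ring
      have h5 : 2 * (e m)^2 * ((e m)^9 - (e l)^9) = 2 * (e m)^11 - 2 * ((e m)^2 * (e l)^9) := by ring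
      rw [h5]
      nlinarith
    nlinarith

lemma norm_psi (a b : ℝ) (s : Fin 5) (ha0 : 0 ≤ a) (ha1 : a ≤ 1) (hb0 : 0 ≤ b) (hb1 : b ≤ 1) :
    ‖psi a b s‖ ≤ 6 * b^12 := by
  have ha2 : a^2 ≤ 1 := pow_le_one₀ ha0 ha1
  have h1 : ∀ i j k : Fin 8, ‖Wv s i + a • Wv s j + a^2 • Wv s k‖ ≤ 3 := by
    intro i j k
    refine (norm_add_le _ _).trans ?_
    have := norm_add_le (Wv s i) (a • Wv s j)
    rw [norm_smul, norm_Wv, Real.norm_eq_abs, abs_of_nonneg ha0, norm_Wv] at this
    rw [norm_smul, norm_Wv, Real.norm_eq_abs, abs_of_nonneg (by positivity : (0:ℝ) ≤ a^2)]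
    linarith
  unfold psi
  refine (norm_add_le _ _).trans ?_
  rw [norm_smul, norm_smul, Real.norm_eq_abs, Real.norm_eq_abs,
    abs_of_nonneg (by positivity : (0:ℝ) ≤ b^12), abs_of_nonneg (by positivity : (0:ℝ) ≤ b^13)]
  have h2 := h1 2 3 4
  have h3 := h1 5 6 7
  have hb12 : 0 ≤ b^12 := by positivity
  have h4 : b^13 ≤ b^12 := pow_le_pow_of_le_one hb0 hb1 (by norm_num)
  have h5 : 0 ≤ b^13 := by positivity
  nlinarith [mul_le_mul_of_nonneg_left h2 hb12, mul_le_mul_of_nonneg_left h3 h5]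

lemma norm_cv (a : ℝ) (s : Fin 5) (ha0 : 0 ≤ a) (ha1 : a ≤ 1/10) :
    ‖cv a s‖ ≤ 3 * a^7 := by
  unfold cv
  refine (norm_add_le _ _).trans ?_
  rw [norm_smul, norm_smul, Real.norm_eq_abs, Real.norm_eq_abs,
    abs_of_nonneg (by positivity : (0:ℝ) ≤ a^7), abs_of_nonneg (by positivity : (0:ℝ) ≤ a^9)]
  have h1 := norm_Ev s
  have h2 := norm_Bv s
  have h4 : a^9 ≤ a^7 * (1/10) := by
    calc a^9 = a^7 * (a * a) := by ring
      _ ≤ a^7 * (1/10 * 1) := by
        apply mul_le_mul_of_nonneg_left _ (by positivity)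
        apply mul_le_mul ha1 (by linarith) ha0 (by norm_num)
      _ = _ := by ring
  have h5 : 0 ≤ a^7 := by positivity
  have h6 : 0 ≤ a^9 := by positivity
  nlinarith [mul_le_mul_of_nonneg_left h1 h5, mul_le_mul_of_nonneg_left h2 h6]

lemma norm_fvT (he : Eps e) (r : Fin 5) {n j : ℕ} (h : n < j) : ‖fv e r n j‖ ≤ 4 * (e j)^7 := by
  unfold fv
  rw [if_pos h]
  refine (norm_add_le _ _).trans ?_
  have h1 := norm_cv (e j) (r+1) (he.pos j).le ((he.small j).trans (by norm_num))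
  have h2 := norm_psi (e n) (e j) (r+1) (he.pos n).le (he.le1 n) (he.pos j).le (he.le1 j)
  have h3 := he.pw j 7 12 (by norm_num)
  have h4 : 0 < (e j)^7 := pow_pos (he.pos j) _
  linarith

lemma norm_fv (he : Eps e) (r : Fin 5) (n j : ℕ) : ‖fv e r n j‖ ≤ 6 * (e n)^12 := by
  by_cases h : n < j
  · have h1 := norm_fvT he r h
    have h2 := he.lt2 h 7 12 (by norm_num) (by norm_num)
    have h3 : 0 < (e n)^12 := pow_pos (he.pos n) _
    linarith
  · unfold fv
    rw [if_neg h]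
    exact norm_psi (e j) (e n) r (he.pos j).le (he.le1 j) (he.pos n).le (he.le1 n)

lemma norm_pt (he : Eps e) (r : Fin 5) (n j : ℕ) : ‖pt e r n j‖ ≤ 4 * (e n)^7 := by
  unfold pt
  refine (norm_add_le _ _).trans ?_
  have h1 := norm_cv (e n) r (he.pos n).le ((he.small n).trans (by norm_num))
  have h2 := norm_fv he r n j
  have h3 := he.pw n 7 12 (by norm_num)
  have h4 : 0 < (e n)^7 := pow_pos (he.pos n) _
  linarith

lemma Ac_bd (he : Eps e) (m l : ℕ) : 99/100 ≤ Ac e m l ∧ Ac e m l ≤ 1 := by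
  unfold Ac
  have h1 := he.pos m
  have h2 := he.pos l
  have h3 := he.small l
  have h4 : (e m)^4 ≤ 1/1000 := by
    have := he.pw m 0 4 (by norm_num)
    simpa using this
  have h5 : 0 < (e m)^4 := by positivity
  constructor <;> nlinarith

lemma Pf_cvb (he : Eps e) {m l j j' : ℕ} (h : m < l) (hj : j ≠ m) (hj' : j' ≠ l) (n : ℕ) :
    0 ≤ Ac e m l * (e n)^7 + Bc e m l j j' * (e n)^9 ∧
    Ac e m l * (e n)^7 + Bc e m l j j' * (e n)^9 ≤ (101/100) * (e n)^7 := by
  have h1 := Ac_bd he m l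
  have h2 := Bc_bd he h hj hj'
  have h3 : 0 < (e n)^7 := pow_pos (he.pos n) _
  have h4 : 0 < (e n)^9 := pow_pos (he.pos n) _
  have h5 := he.pw n 7 9 (by norm_num)
  have h6 : (e m)^2 ≤ 1/1000 := by
    have := he.pw m 0 2 (by norm_num)
    simpa using this
  constructor
  · have := mul_nonneg h2.1 h4.le
    nlinarith
  · have : Bc e m l j j' * (e n)^9 ≤ 1 * (e n)^9 := mul_le_mul_of_nonneg_right (by linarith) h4.le
    nlinarith

lemma Pf_fv_bd (he : Eps e) {m l j j' : ℕ} (h : m < l) (hj : j ≠ m) (hj' : j' ≠ l) (r s : Fin 5)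
    (n j2 : ℕ) : |Pf r (cf e m l j j') (fv e s n j2)| ≤ 3 * (e n)^12 := by
  have hn := he.pos n
  have hj2 := he.pos j2
  have hn1 := he.small n
  have hj21 := he.small j2
  have hn12 : 0 < (e n)^12 := by positivity
  unfold fv
  split_ifs with hlt
  · rw [Pf_add, Pf_cv]
    have h1 := Pf_cvb he h hj hj' j2
    have h2 := GG_le r (s+1)
    have h3 := Pf_psi_bd he r (s+1) m l j j' (e n) (e j2) hn.le (by linarith) hj2.le (by linarith)
    have h4 : |GG r (s+1) * ((cf e m l j j').A * (e j2)^7 + (cf e m l j j').B * (e j2)^9)|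
        ≤ 1 * ((101/100) * (e j2)^7) := by
      rw [abs_mul]
      apply mul_le_mul h2 _ (abs_nonneg _) (by norm_num)
      show |Ac e m l * (e j2)^7 + Bc e m l j j' * (e j2)^9| ≤ _
      rw [abs_of_nonneg h1.1]
      exact h1.2
    have h5 := he.lt2 hlt 7 12 (by norm_num) (by norm_num)
    have h6 := he.lt2 hlt 12 12 (by norm_num) (by norm_num)
    refine (abs_add_le _ _).trans ?_
    linarith
  · have h3 := Pf_psi_bd he r s m l j j' (e j2) (e n) hj2.le (by linarith) hn.le (by linarith)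
    linarith

end Pool.Agent.H544R3.SC
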