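import Pool.Agent.H544R3.SCE

set_option autoImplicit false

namespace Pool.Agent.H544R3.SC
open scoped RealInnerProductSpace

variable {e : ℕ → ℝ}

/-- the gain lemma -/
lemma gain (he : Eps e) (r : Fin 5) (n j j2 : ℕ) (hj : j ≠ n) (hj2 : j2 ≠ n) (s : ℝ)
    (hs : e n / 2 ≤ s) :
    (1/50) * ‖fv e r n j2 - fv e r n j‖^2 / (e n)^7 ≤ s * (val e n j j - val e n j j2) := by
  have hn := he.pos n
  have hn7 : 0 < (e n)^7 := by positivity
  have hs0 : 0 ≤ s := by linarith
  have hej := he.pos j
  have hej2 := he.pos j2
  rw [div_le_iff₀ hn7]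
  -- it suffices to bound below the value difference
  have red : ∀ (W g : ℝ), 0 ≤ W → ‖fv e r n j2 - fv e r n j‖ ≤ W → 0 ≤ g →
      g ≤ val e n j j - val e n j j2 → (1/50) * W^2 ≤ (e n)^8/2 * g →
      (1/50) * ‖fv e r n j2 - fv e r n j‖^2 ≤ s * (val e n j j - val e n j j2) * (e n)^7 := by
    intro W g hW hW2 hg hg2 hf
    have a1 : ‖fv e r n j2 - fv e r n j‖^2 ≤ W^2 := pow_le_pow_left₀ (norm_nonneg _) hW2 2
    have a2 : (e n / 2) * g ≤ s * (val e n j j - val e n j j2) :=
      mul_le_mul hs hg2 hg hs0
    calc (1/50) * ‖fv e r n j2 - fv e r n j‖^2 ≤ (1/50) * W^2 := by linarith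
      _ ≤ (e n)^8/2 * g := hf
      _ = ((e n / 2) * g) * (e n)^7 := by ring
      _ ≤ _ := mul_le_mul_of_nonneg_right a2 hn7.le
  rw [val_self n j hj]
  rw [val_self n j hj] at red
  by_cases h1 : n < j
  · rw [if_pos h1] at red ⊢
    by_cases h2 : n < j2
    · -- TT
      have hv : val e n j j2 = (e j2)^12 * (3/2 * e j - e j2) := by
        unfold val Axf; rw [if_pos h2, if_pos h1]
      rw [hv] at red ⊢
      have b1 := norm_fvT he r h1
      have b2 := norm_fvT he r h2
      have b3 : ‖fv e r n j2 - fv e r n j‖ ≤ 4 * (e j2)^7 + 4 * (e j)^7 :=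
        (norm_sub_le _ _).trans (by linarith)
      rcases lt_trichotomy j j2 with hlt | heq | hgt
      · -- j < j2 : e j2 tiny
        apply red (5 * (e j)^7) (1/4 * (e j)^13) (by positivity)
        · have := he.lt2 hlt 7 7 (by norm_num) (by norm_num)
          have h7 : 0 < (e j)^7 := by positivity
          linarith
        · positivity
        · have c1 := he.lt2 hlt 12 12 (by norm_num) (by norm_num)
          have c2 : (e j2)^12 * (3/2 * e j - e j2) ≤ ((e j)^12 * (1/1000)) * (3/2 * e j) := by
            apply mul_le_mul c1 (by linarith) _ (by positivity)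
            have := he.lt hlt
            linarith
          have c3 : ((e j)^12 * (1/1000)) * (3/2 * e j) = (3/2000) * (e j)^13 := by ring
          have c4 : 0 < (e j)^13 := by positivity
          linarith
        · have d1 := he.lt2 h1 1 8 (by norm_num) (by norm_num)
          rw [pow_one] at d1
          have d2 : (e j)^13 * (e j) ≤ (e j)^13 * ((e n)^8 * (1/1000)) :=
            mul_le_mul_of_nonneg_left d1 (by positivity)
          have d3 : 0 < (e j)^13 * (e n)^8 := by positivity
          calc (1/50) * (5 * (e j)^7)^2 = (1/2) * ((e j)^13 * e j) := by ring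
            _ ≤ (1/2) * ((e j)^13 * ((e n)^8 * (1/1000))) := by linarith
            _ ≤ (e n)^8/2 * (1/4 * (e j)^13) := by nlinarith
      · subst heq
        apply red 0 0 le_rfl
        · simp
        · exact le_rfl
        · have : 0 < (e j)^13 := by positivity
          have h3 : (e j)^12 * (3/2 * e j - e j) = 1/2 * (e j)^13 := by ring
          linarith
        · simp
      · -- j2 < j
        apply red (5 * (e j2)^7) (1/4 * (e j2)^13) (by positivity)
        · have := he.lt2 hgt 7 7 (by norm_num) (by norm_num)
          have h7 : 0 < (e j2)^7 := by positivity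
          linarith
        · positivity
        · have c1 := he.lt hgt
          have c2 : (e j2)^12 * (3/2 * e j - e j2) ≤ (e j2)^12 * (-(1/4) * e j2) := by
            apply mul_le_mul_of_nonneg_left _ (by positivity)
            linarith
          have c3 : (e j2)^12 * (-(1/4) * e j2) = -(1/4) * (e j2)^13 := by ring
          have c4 : 0 < (e j)^13 := by positivity
          linarith
        · have d1 := he.lt2 h2 1 8 (by norm_num) (by norm_num)
          rw [pow_one] at d1
          have d2 : (e j2)^13 * (e j2) ≤ (e j2)^13 * ((e n)^8 * (1/1000)) :=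
            mul_le_mul_of_nonneg_left d1 (by positivity)
          have d3 : 0 < (e j2)^13 * (e n)^8 := by positivity
          calc (1/50) * (5 * (e j2)^7)^2 = (1/2) * ((e j2)^13 * e j2) := by ring
            _ ≤ (1/2) * ((e j2)^13 * ((e n)^8 * (1/1000))) := by linarith
            _ ≤ (e n)^8/2 * (1/4 * (e j2)^13) := by nlinarith
    · -- T Psi
      have hv : val e n j j2 = -(e n)^12 := by
        unfold val X0f X1f X2f; rw [if_neg h2, if_pos h1, if_pos h1, if_pos h1]; ring
      rw [hv] at red ⊢
      have b1 := norm_fv he r n j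
      have b2 := norm_fv he r n j2
      apply red (12 * (e n)^12) ((e n)^12) (by positivity)
      · exact (norm_sub_le _ _).trans (by linarith)
      · positivity
      · have : 0 < (e j)^13 := by positivity
        linarith
      · have d1 := he.pw n 20 24 (by norm_num)
        have d2 : 0 < (e n)^20 := by positivity
        calc (1/50) * (12 * (e n)^12)^2 = (144/50) * (e n)^24 := by ring
          _ ≤ (1/2) * (e n)^20 := by linarith
          _ = _ := by ring
  · rw [if_neg h1] at red ⊢
    by_cases h2 : n < j2
    · -- Psi T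
      have hv : val e n j j2 = -(e j2)^13 := by
        unfold val Axf; rw [if_pos h2, if_neg h1]; ring
      rw [hv] at red ⊢
      have b1 := norm_fv he r n j
      have b2 := norm_fv he r n j2
      apply red (12 * (e n)^12) ((e n)^12) (by positivity)
      · exact (norm_sub_le _ _).trans (by linarith)
      · positivity
      · have : 0 < (e j2)^13 := by positivity
        linarith
      · have d1 := he.pw n 20 24 (by norm_num)
        have d2 : 0 < (e n)^20 := by positivity
        calc (1/50) * (12 * (e n)^12)^2 = (144/50) * (e n)^24 := by ring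
          _ ≤ (1/2) * (e n)^20 := by linarith
          _ = _ := by ring
    · -- Psi Psi
      have hv : val e n j j2 = (e n)^12 * (1 - (e j2 - e j)^2) := by
        unfold val X0f X1f X2f; rw [if_neg h2, if_neg h1, if_neg h1, if_neg h1]; ring
      rw [hv] at red ⊢
      have hdiff : fv e r n j2 - fv e r n j =
          ((e n)^12 * (e j2 - e j)) • ((Wv r 3 + (e j2 + e j) • Wv r 4) +
            (e n) • (Wv r 6 + (e j2 + e j) • Wv r 7)) := by
        unfold fv psi
        rw [if_neg h1, if_neg h2]
        module
      have hsm1 := he.small j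
      have hsm2 := he.small j2
      have hsm3 := he.small n
      have nb : ∀ i k : Fin 8, ‖Wv r i + (e j2 + e j) • Wv r k‖ ≤ 2 := by
        intro i k
        refine (norm_add_le _ _).trans ?_
        rw [norm_smul, norm_Wv, norm_Wv, Real.norm_eq_abs, abs_of_nonneg (by positivity)]
        linarith
      have nb2 : ‖(Wv r 3 + (e j2 + e j) • Wv r 4) + (e n) • (Wv r 6 + (e j2 + e j) • Wv r 7)‖ ≤ 3 := by
        refine (norm_add_le _ _).trans ?_
        rw [norm_smul, Real.norm_eq_abs, abs_of_nonneg hn.le]
        have := nb 3 4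
        have h7 := nb 6 7
        nlinarith [norm_nonneg (Wv r 6 + (e j2 + e j) • Wv r 7)]
      apply red ((e n)^12 * |e j2 - e j| * 3) ((e n)^12 * (e j2 - e j)^2) (by positivity)
      · rw [hdiff, norm_smul, Real.norm_eq_abs, abs_mul, abs_of_nonneg (by positivity : (0:ℝ) ≤ (e n)^12)]
        exact mul_le_mul_of_nonneg_left nb2 (by positivity)
      · positivity
      · have : (e n)^12 - (e n)^12 * (1 - (e j2 - e j)^2) = (e n)^12 * (e j2 - e j)^2 := by ring
        rw [this]
      · have d1 := he.pw n 20 24 (by norm_num)
        have d2 : 0 < (e n)^20 := by positivity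
        have d3 : 0 ≤ (e j2 - e j)^2 := sq_nonneg _
        have d4 : (e n)^24 * (e j2 - e j)^2 ≤ ((e n)^20 * (1/1000)) * (e j2 - e j)^2 :=
          mul_le_mul_of_nonneg_right d1 d3
        have d5 : 0 ≤ (e n)^20 * (e j2 - e j)^2 := by positivity
        calc (1/50) * ((e n)^12 * |e j2 - e j| * 3)^2 = (9/50) * ((e n)^24 * |e j2 - e j|^2) := by ring
          _ = (9/50) * ((e n)^24 * (e j2 - e j)^2) := by rw [sq_abs]
          _ ≤ (1/2) * ((e n)^20 * (e j2 - e j)^2) := by linarith
          _ = _ := by ring

end Pool.Agent.H544R3.SC
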