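import Pool.Agent.H544R3.SCF

set_option autoImplicit false

namespace Pool.Agent.H544R3.SC
open scoped RealInnerProductSpace

variable {e : ℕ → ℝ}

noncomputable def uu (e : ℕ → ℝ) (r : Fin 5) (m l j j' : ℕ) : HH := pt e r m j - pt e r l j'

lemma Pf_pt (r s : Fin 5) (m l j j' n j2 : ℕ) :
    Pf r (cf e m l j j') (pt e s n j2) =
      GG r s * (Ac e m l * (e n)^7 + Bc e m l j j' * (e n)^9) + Pf r (cf e m l j j') (fv e s n j2) := by
  unfold pt
  rw [Pf_add, Pf_cv]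
  rfl

lemma Pf_uu (he : Eps e) {m l j j' : ℕ} (h : m < l) (r : Fin 5) :
    Pf r (cf e m l j j') (uu e r m l j j') = dd e m l := by
  have hD : (e m)^9 - (e l)^9 ≠ 0 := by
    have h1 := he.lt2 h 9 9 (by norm_num) (by norm_num)
    have h2 : 0 < (e m)^9 := pow_pos (he.pos m) _
    intro h3
    linarith
  unfold uu
  rw [Pf_sub, Pf_pt, Pf_pt, Pf_fv_m, Pf_fv_l, GG_self]
  have hB : Bc e m l j j' * ((e m)^9 - (e l)^9) =
      dd e m l - Ac e m l * ((e m)^7 - (e l)^7) - (e m - e l) * (val e m j j + val e l j' j') := by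
    unfold Bc
    exact div_mul_cancel₀ _ hD
  linarith

lemma fv_coord (r : Fin 5) (n j : ℕ) : fv e r n j (r, 0) = 0 := by
  unfold fv
  split_ifs
  · rw [PiLp.add_apply, cv_apply, psi_apply]
    simp [GG_succ]
  · rw [psi_apply]; simp

lemma uu_coord (r : Fin 5) (m l j j' : ℕ) : uu e r m l j j' (r, 0) = (e m)^7 - (e l)^7 := by
  unfold uu pt
  simp only [PiLp.sub_apply, PiLp.add_apply, fv_coord, cv_apply, GG_self]
  simp

lemma uu_norm (he : Eps e) {m l j j' : ℕ} (h : m < l) (r : Fin 5) :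
    (e m)^7 / 2 ≤ ‖uu e r m l j j'‖ := by
  have h1 := coord_le (uu e r m l j j') (r, 0)
  rw [uu_coord] at h1
  have h2 := he.lt2 h 7 7 (by norm_num) (by norm_num)
  have h3 : 0 < (e m)^7 := pow_pos (he.pos m) _
  have h4 := le_abs_self ((e m)^7 - (e l)^7)
  linarith

lemma dd_lb (he : Eps e) {n k : ℕ} (h : n < k) : (e n)^7 + (e n)^11 - (e k)^7 ≤ dd e n k := by
  unfold dd gh
  have h1 := he.pos n
  have h2 := he.pos k
  have h3 : 0 < (e k)^7 * ((1/4 + e k/4) * (e n)^4) := by positivity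
  nlinarith

lemma dd_lb2 (he : Eps e) {n k : ℕ} (h : n < k) : (99/100) * (e n)^7 ≤ dd e n k := by
  have h1 := dd_lb he h
  have h2 := he.lt2 h 7 7 (by norm_num) (by norm_num)
  have h3 : 0 < (e n)^7 := pow_pos (he.pos n) _
  have h4 : 0 < (e n)^11 := pow_pos (he.pos n) _
  linarith

/-- crude bound of inner product part -/
lemma inner_bd (u v : HH) : |⟪u, v⟫ / ‖u‖| ≤ ‖v‖ := by
  rw [abs_div, abs_norm]
  by_cases hu : ‖u‖ = 0
  · rw [hu, div_zero]; exact norm_nonneg _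
  · rw [div_le_iff₀ (lt_of_le_of_ne (norm_nonneg _) (Ne.symm hu)), mul_comm]
    exact abs_real_inner_le_norm _ _

lemma v_norm (he : Eps e) {n k : ℕ} (h : n < k) (s : Fin 5) (j2 k2 : ℕ) :
    ‖uu e s n k j2 k2‖ ≤ 5 * (e n)^7 := by
  unfold uu
  have h1 := norm_pt he s n j2
  have h2 := norm_pt he s k k2
  have h3 := he.lt2 h 7 7 (by norm_num) (by norm_num)
  have h4 : 0 < (e n)^7 := pow_pos (he.pos n) _
  exact (norm_sub_le _ _).trans (by linarith)

lemma main_other (he : Eps e) {m l j j' : ℕ} (h : m < l) (hj : j ≠ m) (hj' : j' ≠ l)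
    {r s : Fin 5} (hrs : s ≠ r) {n k : ℕ} (hnk : n < k) (j2 k2 : ℕ) (w : HH) :
    |Pf r (cf e m l j j') (uu e s n k j2 k2) - (1/100) * (⟪w, uu e s n k j2 k2⟫ / ‖w‖)|
      + (1/100) * ‖uu e s n k j2 k2‖ ≤ dd e n k := by
  have hv := v_norm he hnk s j2 k2
  have hi := inner_bd w (uu e s n k j2 k2)
  have hP : ∀ n j2 : ℕ, |Pf r (cf e m l j j') (pt e s n j2)| ≤ (52/100) * (e n)^7 := by
    intro n j2
    rw [Pf_pt]
    have h1 := Pf_cvb he h hj hj' n
    have h2 := GG_ne r s hrs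
    have h3 := Pf_fv_bd he h hj hj' r s n j2
    have h4 : |GG r s * (Ac e m l * (e n)^7 + Bc e m l j j' * (e n)^9)| ≤ (1/2) * ((101/100) * (e n)^7) := by
      rw [abs_mul]
      apply mul_le_mul h2 _ (abs_nonneg _) (by norm_num)
      rw [abs_of_nonneg h1.1]
      exact h1.2
    have h5 := he.pw n 7 12 (by norm_num)
    have h6 : 0 < (e n)^7 := pow_pos (he.pos n) _
    refine (abs_add_le _ _).trans ?_
    linarith
  have h1 := hP n j2
  have h2 := hP k k2
  have h3 := he.lt2 hnk 7 7 (by norm_num) (by norm_num)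
  have h4 : 0 < (e n)^7 := pow_pos (he.pos n) _
  have h5 := dd_lb2 he hnk
  have h6 : |Pf r (cf e m l j j') (uu e s n k j2 k2)| ≤ (53/100) * (e n)^7 := by
    conv_lhs => unfold uu
    rw [Pf_sub]
    exact (abs_sub _ _).trans (by linarith)
  have h7 : |Pf r (cf e m l j j') (uu e s n k j2 k2) - (1/100) * (⟪w, uu e s n k j2 k2⟫ / ‖w‖)|
      ≤ (53/100) * (e n)^7 + (1/100) * (5 * (e n)^7) := by
    refine (abs_sub _ _).trans ?_
    rw [abs_mul, abs_of_pos (by norm_num : (0:ℝ) < 1/100)]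
    linarith
  linarith

lemma main_neg (he : Eps e) {m l j j' : ℕ} (h : m < l) (hj : j ≠ m) (hj' : j' ≠ l)
    {r : Fin 5} {n k : ℕ} (hnk : n < k) (j2 k2 : ℕ) (w : HH) :
    -(Pf r (cf e m l j j') (uu e r n k j2 k2) - (1/100) * (⟪w, uu e r n k j2 k2⟫ / ‖w‖))
      + (1/100) * ‖uu e r n k j2 k2‖ ≤ dd e n k := by
  have hv := v_norm he hnk r j2 k2
  have hi := inner_bd w (uu e r n k j2 k2)
  have hi2 := (abs_le.mp hi).2
  have h1 := Pf_cvb he h hj hj' n
  have h2 := Pf_cvb he h hj hj' k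
  have h3 := (abs_le.mp (Pf_fv_bd he h hj hj' r r n j2)).1
  have h4 := (abs_le.mp (Pf_fv_bd he h hj hj' r r k k2)).2
  have h5 := dd_lb2 he hnk
  have h6 := he.lt2 hnk 7 7 (by norm_num) (by norm_num)
  have h7 := he.lt2 hnk 12 7 (by norm_num) (by norm_num)
  have h8 := he.pw n 7 12 (by norm_num)
  have h9 : 0 < (e n)^7 := pow_pos (he.pos n) _
  have h10 : Pf r (cf e m l j j') (uu e r n k j2 k2) ≥ -((1/50) * (e n)^7) := by
    conv_lhs => unfold uu
    rw [Pf_sub, Pf_pt, Pf_pt, GG_self]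
    linarith
  linarith

end Pool.Agent.H544R3.SC
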