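import Pool.Agent.H544R3.SCG

set_option autoImplicit false

namespace Pool.Agent.H544R3.SC
open scoped RealInnerProductSpace

variable {e : ℕ → ℝ}

/-- different level, same class -/
lemma main_B (he : Eps e) {m l j j' : ℕ} (h : m < l) (hj : j ≠ m) (hj' : j' ≠ l)
    {r : Fin 5} {n k : ℕ} (hnk : n < k) (hnm : n ≠ m) (j2 k2 : ℕ) :
    Pf r (cf e m l j j') (uu e r n k j2 k2) + (1/100) * (‖uu e r n k j2 k2‖ -
      ⟪uu e r m l j j', uu e r n k j2 k2⟫ / ‖uu e r m l j j'‖) ≤ dd e n k := by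
  have hem := he.pos m
  have hen := he.pos n
  have hek := he.pos k
  have hel := he.pos l
  have hm7 : 0 < (e m)^7 := by positivity
  have hn7 : 0 < (e n)^7 := by positivity
  set s := (e n)^7 / (e m)^7 with hs
  have hs0 : 0 < s := by positivity
  have hsm : s * (e m)^7 = (e n)^7 := by rw [hs]; field_simp
  -- M
  obtain ⟨M, hM0, hMn, hMm, hkey⟩ : ∃ M : ℝ, 0 < M ∧ (e n)^2 ≤ M ∧ (e m)^2 ≤ M ∧
      (Ac e m l * (e n)^7 + Bc e m l j j' * (e n)^9 + (9/100) * ((e n)^7 * M^2) +
        (1/100) * ((e n)^7 * M^2) ≤ (e n)^7 + (e n)^11) := by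
    have hB := Bc_bd he h hj hj'
    have hn11 : 0 < (e n)^11 := by positivity
    have hA : Ac e m l * (e n)^7 ≤ (e n)^7 - (1/4) * ((e m)^4 * (e n)^7) := by
      unfold Ac
      have : 0 < e l * ((e m)^4 * (e n)^7) := by positivity
      nlinarith
    have hBn : Bc e m l j j' * (e n)^9 ≤ 2 * ((e m)^2 * (e n)^9) := by
      calc Bc e m l j j' * (e n)^9 ≤ (2 * (e m)^2) * (e n)^9 :=
            mul_le_mul_of_nonneg_right hB.2 (by positivity)
        _ = _ := by ring
    rcases lt_or_gt_of_ne hnm with hlt | hgt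
    · -- n < m
      have h2 : (e m)^2 ≤ (e n)^2 * (1/1000) := he.lt2 hlt 2 2 (by norm_num) (by norm_num)
      have hn2 : 0 < (e n)^2 := by positivity
      refine ⟨(e n)^2, hn2, le_rfl, by linarith, ?_⟩
      have h3 : (e m)^2 * (e n)^9 ≤ ((e n)^2 * (1/1000)) * (e n)^9 :=
        mul_le_mul_of_nonneg_right h2 (by positivity)
      have h4 : ((e n)^2 * (1/1000)) * (e n)^9 = (1/1000) * (e n)^11 := by ring
      have h5 : (e n)^7 * ((e n)^2)^2 = (e n)^11 := by ring
      have h6 : 0 < (e m)^4 * (e n)^7 := by positivity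
      rw [h5]
      linarith
    · -- m < n
      have h2 : (e n)^2 ≤ (e m)^2 * (1/1000) := he.lt2 hgt 2 2 (by norm_num) (by norm_num)
      have hm2 : 0 < (e m)^2 := by positivity
      refine ⟨(e m)^2, hm2, by linarith, le_rfl, ?_⟩
      have h3 : (e n)^2 * ((e m)^2 * (e n)^7) ≤ ((e m)^2 * (1/1000)) * ((e m)^2 * (e n)^7) :=
        mul_le_mul_of_nonneg_right h2 (by positivity)
      have h4 : (e m)^2 * (e n)^9 = (e n)^2 * ((e m)^2 * (e n)^7) := by ring
      have h4' : ((e m)^2 * (1/1000)) * ((e m)^2 * (e n)^7) = (1/1000) * ((e m)^4 * (e n)^7) := by ring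
      have h5 : (e n)^7 * ((e m)^2)^2 = (e m)^4 * (e n)^7 := by ring
      have h6 : 0 < (e m)^4 * (e n)^7 := by positivity
      rw [h5]
      linarith
  -- M ≤ 1/1000
  -- norm estimate
  have hdec : uu e r n k j2 k2 - s • uu e r m l j j' =
      ((e n)^7 * ((e n)^2 - (e m)^2)) • Bv r + (fv e r n j2 - pt e r k k2)
        - s • (fv e r m j - pt e r l j') := by
    have h1 : cv (e n) r - s • cv (e m) r = ((e n)^7 * ((e n)^2 - (e m)^2)) • Bv r := by
      unfold cv
      have : (e n)^7 • Ev r + (e n)^9 • Bv r - s • ((e m)^7 • Ev r + (e m)^9 • Bv r)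
          = ((e n)^7 - s * (e m)^7) • Ev r + ((e n)^9 - (s * (e m)^7) * (e m)^2) • Bv r := by module
      rw [this, hsm, sub_self, zero_smul, zero_add]
      congr 1
      ring
    rw [← h1]
    unfold uu
    conv_lhs => rw [show pt e r n j2 = cv (e n) r + fv e r n j2 from rfl,
      show pt e r m j = cv (e m) r + fv e r m j from rfl]
    module
  have hnorm : ‖uu e r n k j2 k2 - s • uu e r m l j j'‖ ≤ 3 * ((e n)^7 * M) := by
    rw [hdec]
    have n1 : ‖((e n)^7 * ((e n)^2 - (e m)^2)) • Bv r‖ ≤ (e n)^7 * M * 2 := by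
      rw [norm_smul, Real.norm_eq_abs, abs_mul, abs_of_pos hn7]
      apply mul_le_mul _ (norm_Bv r) (norm_nonneg _) (by positivity)
      apply mul_le_mul_of_nonneg_left _ hn7.le
      rw [abs_le]
      have := sq_nonneg (e m)
      have := sq_nonneg (e n)
      constructor <;> linarith
    have n2 : ‖fv e r n j2 - pt e r k k2‖ ≤ (1/10) * ((e n)^7 * M) := by
      have a1 := norm_fv he r n j2
      have a2 := norm_pt he r k k2
      have a3 := he.lt2 hnk 7 9 (by norm_num) (by norm_num)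
      have a4 := he.pw n 9 12 (by norm_num)
      have a5 : (e n)^9 ≤ (e n)^7 * M := by
        calc (e n)^9 = (e n)^7 * (e n)^2 := by ring
          _ ≤ _ := mul_le_mul_of_nonneg_left hMn hn7.le
      have a6 : 0 < (e n)^9 := by positivity
      exact (norm_sub_le _ _).trans (by linarith)
    have n3 : ‖s • (fv e r m j - pt e r l j')‖ ≤ (1/10) * ((e n)^7 * M) := by
      rw [norm_smul, Real.norm_eq_abs, abs_of_pos hs0]
      have a1 := norm_fv he r m j
      have a2 := norm_pt he r l j'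
      have a3 := he.lt2 h 7 9 (by norm_num) (by norm_num)
      have a4 := he.pw m 9 12 (by norm_num)
      have a6 : 0 < (e m)^9 := by positivity
      have a5 : ‖fv e r m j - pt e r l j'‖ ≤ (1/10) * (e m)^9 := 
        (norm_sub_le _ _).trans (by linarith)
      calc s * ‖fv e r m j - pt e r l j'‖ ≤ s * ((1/10) * (e m)^9) :=
            mul_le_mul_of_nonneg_left a5 hs0.le
        _ = (1/10) * ((s * (e m)^7) * (e m)^2) := by ring
        _ = (1/10) * ((e n)^7 * (e m)^2) := by rw [hsm]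
        _ ≤ _ := by
            have := mul_le_mul_of_nonneg_left hMm hn7.le
            linarith
    have n4 := norm_sub_le (((e n)^7 * ((e n)^2 - (e m)^2)) • Bv r + (fv e r n j2 - pt e r k k2))
      (s • (fv e r m j - pt e r l j'))
    have n5 := norm_add_le (((e n)^7 * ((e n)^2 - (e m)^2)) • Bv r) (fv e r n j2 - pt e r k k2)
    have n6 : 0 < (e n)^7 * M := by positivity
    linarith
  have hdev := dev (uu e r m l j j') (uu e r n k j2 k2) s ((e n)^7/2) hs0 (by positivity) (by
    have := uu_norm he h r (j := j) (j' := j')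
    calc (e n)^7/2 = s * ((e m)^7/2) := by rw [← hsm]; ring
      _ ≤ _ := mul_le_mul_of_nonneg_left this hs0.le)
  have hdev2 : ‖uu e r n k j2 k2 - s • uu e r m l j j'‖^2 / (2 * ((e n)^7/2)) ≤ 9 * ((e n)^7 * M^2) := by
    rw [div_le_iff₀ (by positivity)]
    calc ‖uu e r n k j2 k2 - s • uu e r m l j j'‖^2 ≤ (3 * ((e n)^7 * M))^2 :=
          pow_le_pow_left₀ (norm_nonneg _) hnorm 2
      _ = _ := by ring
  have hP : Pf r (cf e m l j j') (uu e r n k j2 k2) ≤
      Ac e m l * (e n)^7 + Bc e m l j j' * (e n)^9 + 3 * (e n)^12 + 3 * (e k)^12 := by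
    conv_lhs => unfold uu
    rw [Pf_sub, Pf_pt, Pf_pt, GG_self]
    have h2 := (Pf_cvb he h hj hj' k).1
    have h3 := (abs_le.mp (Pf_fv_bd he h hj hj' r r n j2)).2
    have h4 := (abs_le.mp (Pf_fv_bd he h hj hj' r r k k2)).1
    linarith
  have hdd := dd_lb he hnk
  -- remaining small terms: 3 e n^12 + 3 e k^12 + e k^7 ≤ (1/100) e n^7 M^2
  have hM4 : (e n)^11 ≤ (e n)^7 * M^2 := by
    calc (e n)^11 = (e n)^7 * ((e n)^2)^2 := by ring
      _ ≤ _ := mul_le_mul_of_nonneg_left (pow_le_pow_left₀ (by positivity) hMn 2) hn7.le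
  have b1 := he.pw n 11 12 (by norm_num)
  have b2 := he.lt2 hnk 12 11 (by norm_num) (by norm_num)
  have b3 := he.lt2 hnk 7 11 (by norm_num) (by norm_num)
  have b4 : 0 < (e n)^11 := by positivity
  linarith

end Pool.Agent.H544R3.SC
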