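import Pool.Agent.H544R3.SCH

set_option autoImplicit false

namespace Pool.Agent.H544R3.SC
open scoped RealInnerProductSpace

variable {e : ℕ → ℝ}

lemma main_CD (he : Eps e) {m l j j' : ℕ} (h : m < l) (hj : j ≠ m) (hj' : j' ≠ l)
    {r : Fin 5} {k : ℕ} (hmk : m < k) {j2 k2 : ℕ} (hj2 : j2 ≠ m) (hk2 : k2 ≠ k) :
    Pf r (cf e m l j j') (uu e r m k j2 k2) + (1/100) * (‖uu e r m k j2 k2‖ -
      ⟪uu e r m l j j', uu e r m k j2 k2⟫ / ‖uu e r m l j j'‖) ≤ dd e m k := by
  have hem := he.pos m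
  have hek := he.pos k
  have hel := he.pos l
  have hm7 : 0 < (e m)^7 := by positivity
  have hlm := he.lt h
  have hs : e m / 2 ≤ e m - e l := by linarith
  have hsl : e l / 2 ≤ e m - e l := by linarith
  have hnu := uu_norm he h r (j := j) (j' := j')
  have hdev := dev (uu e r m l j j') (uu e r m k j2 k2) 1 ((e m)^7/2) one_pos (by positivity)
    (by rw [one_mul]; exact hnu)
  rw [one_smul] at hdev
  have e1 : 2 * ((e m)^7/2) = (e m)^7 := by ring
  rw [e1] at hdev
  -- split
  set F := fv e r m j2 - fv e r m j with hF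
  set Y := pt e r k k2 - pt e r l j' with hY
  have hsub : uu e r m k j2 k2 - uu e r m l j j' = F - Y := by
    rw [hF, hY]; unfold uu
    rw [show pt e r m j2 = cv (e m) r + fv e r m j2 from rfl,
      show pt e r m j = cv (e m) r + fv e r m j from rfl]
    abel
  have hsq : ‖uu e r m k j2 k2 - uu e r m l j j'‖^2 ≤ 2 * ‖F‖^2 + 2 * ‖Y‖^2 := by
    rw [hsub]
    have h1 := norm_sub_le F Y
    have h2 : ‖F - Y‖^2 ≤ (‖F‖ + ‖Y‖)^2 := pow_le_pow_left₀ (norm_nonneg _) h1 2
    nlinarith [sq_nonneg (‖F‖ - ‖Y‖)]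
  have hdev2 : ‖uu e r m k j2 k2 - uu e r m l j j'‖^2 / (e m)^7 ≤
      2 * (‖F‖^2 / (e m)^7) + 2 * (‖Y‖^2 / (e m)^7) := by
    rw [div_le_iff₀ hm7]
    have : (2 * (‖F‖^2 / (e m)^7) + 2 * (‖Y‖^2 / (e m)^7)) * (e m)^7 = 2 * ‖F‖^2 + 2 * ‖Y‖^2 := by
      field_simp
    rw [this]; exact hsq
  have hgx := gain he r m j j2 hj hj2 (e m - e l) hs
  rw [← hF] at hgx
  have hgx' : (1/50) * (‖F‖^2 / (e m)^7) ≤ (e m - e l) * (val e m j j - val e m j j2) := by
    rw [← mul_div_assoc]; exact hgx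
  -- P values
  have hPv : Pf r (cf e m l j j') (uu e r m k j2 k2) =
      (Ac e m l * (e m)^7 + Bc e m l j j' * (e m)^9) + (e m - e l) * val e m j j2
        - Pf r (cf e m l j j') (pt e r k k2) := by
    conv_lhs => unfold uu
    rw [Pf_sub, Pf_pt (s := r) (n := m), GG_self, Pf_fv_m]
    ring
  have hPu : dd e m l = (Ac e m l * (e m)^7 + Bc e m l j j' * (e m)^9) + (e m - e l) * val e m j j
        - Pf r (cf e m l j j') (pt e r l j') := by
    rw [← Pf_uu he h r (j := j) (j' := j')]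
    conv_lhs => unfold uu
    rw [Pf_sub, Pf_pt (s := r) (n := m), GG_self, Pf_fv_m]
    ring
  -- reduce
  suffices hmain : dd e m l + Pf r (cf e m l j j') (pt e r l j') - Pf r (cf e m l j j') (pt e r k k2)
      + (1/50) * (‖Y‖^2 / (e m)^7) ≤ dd e m k by
    nlinarith
  by_cases hkl : k = l
  · subst hkl
    have hYf : Y = fv e r k k2 - fv e r k j' := by
      rw [hY]
      rw [show pt e r k k2 = cv (e k) r + fv e r k k2 from rfl,
        show pt e r k j' = cv (e k) r + fv e r k j' from rfl]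
      abel
    have hgy := gain he r k j' k2 hj' hk2 (e m - e k) hsl
    rw [← hYf] at hgy
    have hgy' : (1/50) * (‖Y‖^2 / (e k)^7) ≤ (e m - e k) * (val e k j' j' - val e k j' k2) := by
      rw [← mul_div_assoc]; exact hgy
    have hdiv : ‖Y‖^2 / (e m)^7 ≤ ‖Y‖^2 / (e k)^7 := by
      apply div_le_div_of_nonneg_left (by positivity) (by positivity)
      exact pow_le_pow_left₀ hek.le (by linarith) 7
    rw [Pf_pt, Pf_pt, Pf_fv_l, Pf_fv_l]
    nlinarith
  · -- different blocks
    have hB := Bc_bd he h hj hj'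
    have hYn : ‖Y‖ ≤ 4 * (e k)^7 + 4 * (e l)^7 := by
      rw [hY]
      have h1 := norm_pt he r k k2
      have h2 := norm_pt he r l j'
      exact (norm_sub_le _ _).trans (by linarith)
    have hFl := (abs_le.mp (Pf_fv_bd he h hj hj' r r l j')).2
    have hFk := (abs_le.mp (Pf_fv_bd he h hj hj' r r k k2)).1
    rw [Pf_pt, Pf_pt, GG_self]
    set Fl := Pf r (cf e m l j j') (fv e r l j') with hFldef
    set Fk := Pf r (cf e m l j j') (fv e r k k2) with hFkdef
    -- sigma l
    have hel8 : 0 < (e l)^8 * (e m)^4 := by positivity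
    have hel12 : (e l)^12 ≤ ((e l)^8 * (e m)^4) * (1/1000) := by
      have := he.lt2 h 4 4 (by norm_num) (by norm_num)
      calc (e l)^12 = (e l)^8 * (e l)^4 := by ring
        _ ≤ (e l)^8 * ((e m)^4 * (1/1000)) := mul_le_mul_of_nonneg_left this (by positivity)
        _ = _ := by ring
    have hBl : Bc e m l j j' * (e l)^9 ≤ ((e l)^8 * (e m)^4) * (2/1000) := by
      have h1 := he.lt2 h 1 2 (by norm_num) (by norm_num)
      rw [pow_one] at h1
      calc Bc e m l j j' * (e l)^9 ≤ (2 * (e m)^2) * (e l)^9 :=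
            mul_le_mul_of_nonneg_right hB.2 (by positivity)
        _ = (2 * (e m)^2 * (e l)^8) * e l := by ring
        _ ≤ (2 * (e m)^2 * (e l)^8) * ((e m)^2 * (1/1000)) :=
            mul_le_mul_of_nonneg_left h1 (by positivity)
        _ = _ := by ring
    have hBk : 0 ≤ Bc e m l j j' * (e k)^9 := mul_nonneg hB.1 (by positivity)
    have hdiff : dd e m l - dd e m k + (Ac e m l * (e l)^7) - (Ac e m l * (e k)^7) =
        -(1/8) * ((e l)^8 * (e m)^4) - (1/4 * e k - 3/8 * e l) * ((e k)^7 * (e m)^4) := by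
      unfold dd gh Ac
      ring
    rcases lt_or_gt_of_ne hkl with hlt | hgt
    · -- k < l
      have hk8 : 0 < (e k)^8 * (e m)^4 := by positivity
      have hlk := he.lt hlt
      have c1 : (1/8) * ((e k)^8 * (e m)^4) ≤ (1/4 * e k - 3/8 * e l) * ((e k)^7 * (e m)^4) := by
        have : (1/8) * ((e k)^8 * (e m)^4) = (1/8 * e k) * ((e k)^7 * (e m)^4) := by ring
        rw [this]
        apply mul_le_mul_of_nonneg_right _ (by positivity)
        linarith
      have c2 : (e k)^12 ≤ ((e k)^8 * (e m)^4) * (1/1000) := by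
        have := he.lt2 hmk 4 4 (by norm_num) (by norm_num)
        calc (e k)^12 = (e k)^8 * (e k)^4 := by ring
          _ ≤ (e k)^8 * ((e m)^4 * (1/1000)) := mul_le_mul_of_nonneg_left this (by positivity)
          _ = _ := by ring
      have c3 : ‖Y‖ ≤ 5 * (e k)^7 := by
        have := he.lt2 hlt 7 7 (by norm_num) (by norm_num)
        have h7 : 0 < (e k)^7 := by positivity
        linarith
      have c4 : ‖Y‖^2 / (e m)^7 ≤ ((e k)^8 * (e m)^4) * (25/1000) := by
        rw [div_le_iff₀ hm7]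
        have h1 : ‖Y‖^2 ≤ (5 * (e k)^7)^2 := pow_le_pow_left₀ (norm_nonneg _) c3 2
        have h2 := he.lt2 hmk 6 11 (by norm_num) (by norm_num)
        calc ‖Y‖^2 ≤ (5 * (e k)^7)^2 := h1
          _ = 25 * ((e k)^8 * (e k)^6) := by ring
          _ ≤ 25 * ((e k)^8 * ((e m)^11 * (1/1000))) := by
              have := mul_le_mul_of_nonneg_left h2 (by positivity : (0:ℝ) ≤ (e k)^8)
              linarith
          _ = _ := by ring
      linarith
    · -- l < k
      have hkl' := he.lt hgt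
      have c1 : -((1/2) * (e k)^7) ≤ (1/4 * e k - 3/8 * e l) * ((e k)^7 * (e m)^4) := by
        have h1 : 0 < (e k)^8 * (e m)^4 := by positivity
        have h2 : (e l) * (e m)^4 ≤ 1 := mul_le_one₀ (he.le1 l) (by positivity)
          (pow_le_one₀ hem.le (he.le1 m))
        have h3 : (e k)^7 * ((e l) * (e m)^4) ≤ (e k)^7 * 1 :=
          mul_le_mul_of_nonneg_left h2 (by positivity)
        have h4 : (1/4 * e k - 3/8 * e l) * ((e k)^7 * (e m)^4) =
            1/4 * ((e k)^8 * (e m)^4) - 3/8 * ((e k)^7 * (e l * (e m)^4)) := by ring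
        have h5 : 0 < (e k)^7 := by positivity
        rw [h4]
        linarith
      -- e k ^7 ≤ e l^8 e m^4 /1000
      have c2 : (e k)^7 ≤ ((e l)^8 * (e m)^4) * (1/1000) := by
        have h1 := he.lt2 hgt 7 12 (by norm_num) (by norm_num)
        have h2 : (e l)^4 ≤ (e m)^4 := pow_le_pow_left₀ hel.le (by linarith) 4
        calc (e k)^7 ≤ (e l)^12 * (1/1000) := h1
          _ = ((e l)^8 * (e l)^4) * (1/1000) := by ring
          _ ≤ ((e l)^8 * (e m)^4) * (1/1000) := by
              apply mul_le_mul_of_nonneg_right _ (by norm_num)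
              exact mul_le_mul_of_nonneg_left h2 (by positivity)
      have c2' : (e k)^12 ≤ (e k)^7 := pow_le_pow_of_le_one hek.le (he.le1 k) (by norm_num)
      have c3 : ‖Y‖ ≤ 5 * (e l)^7 := by
        have := he.lt2 hgt 7 7 (by norm_num) (by norm_num)
        have h7 : 0 < (e l)^7 := by positivity
        linarith
      have c4 : ‖Y‖^2 / (e m)^7 ≤ ((e l)^8 * (e m)^4) * (25/1000) := by
        rw [div_le_iff₀ hm7]
        have h1 : ‖Y‖^2 ≤ (5 * (e l)^7)^2 := pow_le_pow_left₀ (norm_nonneg _) c3 2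
        have h2 := he.lt2 h 6 11 (by norm_num) (by norm_num)
        calc ‖Y‖^2 ≤ (5 * (e l)^7)^2 := h1
          _ = 25 * ((e l)^8 * (e l)^6) := by ring
          _ ≤ 25 * ((e l)^8 * ((e m)^11 * (1/1000))) := by
              have := mul_le_mul_of_nonneg_left h2 (by positivity : (0:ℝ) ≤ (e l)^8)
              linarith
          _ = _ := by ring
      linarith

end Pool.Agent.H544R3.SC
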