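import Pool.Agent.H544R3.SCA
import Pool.Agent.H544R3.SCI

set_option autoImplicit false

namespace Pool.Agent.H544R3.SC
open scoped RealInnerProductSpace

variable {e : ℕ → ℝ}

structure Idx where
  r : Fin 5
  m : ℕ
  l : ℕ
  j : ℕ
  j' : ℕ
  h : m < l
  hj : j ≠ m
  hj' : j' ≠ l

instance : Nonempty Idx := ⟨⟨0, 0, 1, 1, 0, by norm_num, by norm_num, by norm_num⟩⟩

noncomputable def pp (e : ℕ → ℝ) (i : Idx) (x : HH) : ℝ :=
  Pf i.r (cf e i.m i.l i.j i.j') x -
    (1/100) * (⟪uu e i.r i.m i.l i.j i.j', x⟫ / ‖uu e i.r i.m i.l i.j i.j'‖)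

lemma X_bd (he : Eps e) (n j : ℕ) : |X0f e n j| ≤ 1 ∧ |X1f e n j| ≤ 1 ∧ |X2f n j| ≤ 1 := by
  unfold X0f X1f X2f
  have h1 := he.pos j
  have h2 := he.small j
  have h3 : (e j)^2 ≤ 1 := pow_le_one₀ h1.le (he.le1 j)
  have h4 : 0 < (e j)^2 := by positivity
  split_ifs
  · simp
  · refine ⟨?_, ?_, ?_⟩
    · rw [abs_le]; constructor <;> linarith
    · rw [abs_le]; constructor <;> linarith
    · simp

lemma Pf_bound (he : Eps e) (i : Idx) (x : HH) :
    |Pf i.r (cf e i.m i.l i.j i.j') x| ≤ 24 * ‖x‖ := by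
  obtain ⟨r, m, l, j, j', h, hj, hj'⟩ := i
  simp only
  have hm0 := he.pos m
  have hm1 := he.small m
  have hl0 := he.pos l
  have hl1 := he.small l
  have hA := Ac_bd he m l
  have hB := Bc_bd he h hj hj'
  have hm2 : (e m)^2 ≤ 1/1000 := by
    have := he.pw m 0 2 (by norm_num)
    simpa using this
  have hAx := Axf_bd he m j
  have hAy := Axf_bd he l j'
  obtain ⟨hX0, hX1, hX2⟩ := X_bd he m j
  obtain ⟨hY0, hY1, hY2⟩ := X_bd he l j'
  have term : ∀ (a : ℝ) (q : Fin 5 × Fin 8), |a| ≤ 2 → |a * x q| ≤ 2 * ‖x‖ := by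
    intro a q ha
    rw [abs_mul]
    exact mul_le_mul ha (coord_le x q) (abs_nonneg _) (by norm_num)
  have comb : ∀ a b : ℝ, |a| ≤ 1 → |b| ≤ 1 → |-a * e l - b * e m| ≤ 2 := by
    intro a b ha hb
    rw [abs_le] at ha hb ⊢
    constructor <;> nlinarith
  have comb2 : ∀ a b : ℝ, |a| ≤ 1 → |b| ≤ 1 → |a + b| ≤ 2 := by
    intro a b ha hb
    exact (abs_add_le a b).trans (by linarith)
  have t1 := term (Ac e m l) (r, 0) (by rw [abs_le]; constructor <;> linarith)
  have t2 := term (Bc e m l j j') (r, 1) (by rw [abs_le]; constructor <;> linarith)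
  have hax : |Axf e m j| ≤ 1 := by rw [abs_le]; constructor <;> linarith
  have hay : |Axf e l j'| ≤ 1 := by rw [abs_le]; constructor <;> linarith
  have t3 := term _ (r+1, 2) (comb _ _ hax hay)
  have t4 := term _ (r+1, 3) (comb2 _ _ hax hay)
  have t5 := term (e l + e m) (r+1, 5) (by rw [abs_le]; constructor <;> linarith)
  have t6 := term 2 (r+1, 6) (by norm_num)
  have t7 := term _ (r, 2) (comb _ _ hX0 hY0)
  have t8 := term _ (r, 3) (comb _ _ hX1 hY1)
  have t9 := term _ (r, 4) (comb _ _ hX2 hY2)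
  have t10 := term _ (r, 5) (comb2 _ _ hX0 hY0)
  have t11 := term _ (r, 6) (comb2 _ _ hX1 hY1)
  have t12 := term _ (r, 7) (comb2 _ _ hX2 hY2)
  unfold Pf cf
  simp only
  rw [abs_le] at t1 t2 t3 t4 t5 t6 t7 t8 t9 t10 t11 t12 ⊢
  constructor <;> linarith [t1.1, t2.1, t3.1, t4.1, t5.1, t6.1, t7.1, t8.1, t9.1, t10.1, t11.1,
    t12.1, t1.2, t2.2, t3.2, t4.2, t5.2, t6.2, t7.2, t8.2, t9.2, t10.2, t11.2, t12.2]

lemma fam (he : Eps e) : Fam (pp e) 25 where
  add := by
    intro i x y
    unfold pp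
    rw [Pf_add, inner_add_right]; ring
  smul := by
    intro i c x
    unfold pp
    rw [Pf_smul, inner_smul_right]; ring
  bd := by
    intro i x
    unfold pp
    have h1 := Pf_bound he i x
    have h2 := inner_bd (uu e i.r i.m i.l i.j i.j') x
    have h3 := norm_nonneg x
    refine (abs_sub _ _).trans ?_
    rw [abs_mul, abs_of_pos (by norm_num : (0:ℝ) < 1/100)]
    linarith

noncomputable def NF (e : ℕ → ℝ) (x : HH) : ℝ := NN (1/100) (pp e) x

lemma NF_uu (he : Eps e) {n k j2 k2 : ℕ} (hnk : n < k) (hj2 : j2 ≠ n) (hk2 : k2 ≠ k) (s : Fin 5) :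
    NF e (uu e s n k j2 k2) = dd e n k := by
  unfold NF
  apply NN_eq (fam he) _ _ _ ⟨s, n, k, j2, k2, hnk, hj2, hk2⟩
  · unfold pp
    simp only
    rw [Pf_uu he hnk, real_inner_self_eq_norm_sq]
    have hpos : 0 < ‖uu e s n k j2 k2‖ :=
      lt_of_lt_of_le (by have := he.pos n; positivity) (uu_norm he hnk s)
    field_simp
    ring
  · rintro ⟨r, m, l, j, j', h, hj, hj'⟩
    unfold pp
    simp only
    by_cases hrs : s = r
    · subst hrs
      have hneg := main_neg he h hj hj' (r := s) hnk j2 k2 (uu e s m l j j')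
      have hpos : Pf s (cf e m l j j') (uu e s n k j2 k2) + (1/100) * (‖uu e s n k j2 k2‖ -
          ⟪uu e s m l j j', uu e s n k j2 k2⟫ / ‖uu e s m l j j'‖) ≤ dd e n k := by
        by_cases hnm : n = m
        · subst hnm
          exact main_CD he h hj hj' hnk hj2 hk2
        · exact main_B he h hj hj' hnk hnm j2 k2
      rcases abs_cases (Pf s (cf e m l j j') (uu e s n k j2 k2) -
        1 / 100 * (⟪uu e s m l j j', uu e s n k j2 k2⟫ / ‖uu e s m l j j'‖)) with h1 | h1
      · rw [h1.1]; linarith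
      · rw [h1.1]; linarith
    · exact main_other he h hj hj' hrs hnk j2 k2 _

def CS (e : ℕ → ℝ) (r : Fin 5) (m : ℕ) : Set HH := {x | ∃ j, j ≠ m ∧ x = pt e r m j}

lemma NF_neg (he : Eps e) (x y : HH) : NF e (x - y) = NF e (y - x) := by
  have := NN_smul (κ := 1/100) (fam he) (-1) (y - x)
  unfold NF
  rw [abs_neg, abs_one, one_mul] at this
  rw [← this]
  congr 1
  rw [neg_one_smul, neg_sub]

lemma NF_dist (he : Eps e) {r : Fin 5} {m l : ℕ} (h : m < l) {x y : HH} (hx : x ∈ CS e r m)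
    (hy : y ∈ CS e r l) : NF e (x - y) = dd e m l := by
  obtain ⟨j, hj, rfl⟩ := hx
  obtain ⟨j', hj', rfl⟩ := hy
  exact NF_uu he h hj hj' r

noncomputable def e0 (n : ℕ) : ℝ := (1/1000)^(20^n)

lemma eps0 : Eps e0 where
  pos := by intro n; unfold e0; positivity
  small := by
    intro n
    unfold e0
    calc ((1:ℝ)/1000)^(20^n) ≤ (1/1000)^1 :=
          pow_le_pow_of_le_one (by norm_num) (by norm_num) (Nat.one_le_pow _ _ (by norm_num))
      _ = _ := pow_one _
  fast := by
    intro m l h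
    unfold e0
    rw [← pow_mul]
    apply pow_le_pow_of_le_one (by norm_num) (by norm_num)
    calc 20^m * 20 = 20^(m+1) := by ring
      _ ≤ 20^l := Nat.pow_le_pow_right (by norm_num) h

theorem final : ¬ (∀ (E : Type) [NormedAddCommGroup E] [NormedSpace ℝ E] [FiniteDimensional ℝ E]
      [StrictConvexSpace ℝ E],
      2 ≤ Module.finrank ℝ E →
      ∀ M : Set E, M.Infinite →
        (∃ c : E → Fin 2, ∀ f : E → E,
            (∀ x ∈ M, ∀ y ∈ M, dist (f x) (f y) = dist x y) →
            ∃ x ∈ M, ∃ y ∈ M, c (f x) ≠ c (f y)) ∧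
        ¬ (∃ c : E → Fin 1, ∀ f : E → E,
            (∀ x ∈ M, ∀ y ∈ M, dist (f x) (f y) = dist x y) →
            ∃ x ∈ M, ∃ y ∈ M, c (f x) ≠ c (f y))) := by
  have he := eps0
  have hX : ∀ m, pt e0 0 m (m+1) ∈ CS e0 0 m := fun m => ⟨m+1, by omega, rfl⟩
  have hN0 : NF e0 0 = 0 := by
    have := NN_smul (κ := 1/100) (fam he) 0 (0 : HH)
    rw [zero_smul, abs_zero, zero_mul] at this
    exact this
  have hddpos : ∀ {m l : ℕ}, m < l → 0 < dd e0 m l := by
    intro m l h
    have h1 := dd_lb2 he h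
    have h2 : 0 < (e0 m)^7 := pow_pos (he.pos m) _
    linarith
  apply reduce HH (by rw [finrank_euclideanSpace]; simp) (NF e0)
    (fun x => NN_nonneg (by norm_num) x)
    (fun c x => NN_smul (fam he) c x)
    (fun x y => NN_add (fam he) (by norm_num) x y)
    (fun x hx => NN_zero (by norm_num) x hx)
    (fun x y hx hy hxy => NN_strict (fam he) (by norm_num) x y hx hy hxy)
    (fun m => pt e0 0 m (m+1))
  · -- injective
    intro m l hml
    by_contra hne
    rcases lt_or_gt_of_ne hne with h | h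
    · have h1 := NF_dist he h (hX m) (hX l)
      simp only at hml
      rw [hml, sub_self, hN0] at h1
      exact absurd h1 (hddpos h).ne
    · have h1 := NF_dist he h (hX l) (hX m)
      simp only at hml
      rw [hml, sub_self, hN0] at h1
      exact absurd h1 (hddpos h).ne
  · intro c
    obtain ⟨r, z, α, x, hx⟩ := combi (CS e0) (fun r m => cv (e0 m) r)
      (fun r m => cv_sum (e0 m) r)
      (by
        intro r m l h
        refine ⟨pt e0 (r+1) l m, ⟨m, by omega, rfl⟩, l, by omega, ?_⟩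
        have h' : ¬ l < m := by omega
        unfold pt fv
        rw [if_neg h', if_pos h])
      (fun y => decide (c y = 0))
    refine ⟨fun i => z + x i, ?_, ?_⟩
    · intro i j
      have hsub : (z + x i) - (z + x j) = x i - x j := by abel
      simp only
      rw [hsub]
      rcases lt_trichotomy i j with h | h | h
      · rw [NF_dist he h (hx i).1 (hx j).1, NF_dist he h (hX i) (hX j)]
      · subst h; rw [sub_self, sub_self]
      · rw [NF_neg he, NF_dist he h (hx j).1 (hx i).1, NF_neg he, NF_dist he h (hX j) (hX i)]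
    · intro i j
      have h1 := (hx i).2
      have h2 := (hx j).2
      simp only
      cases α
      · rw [decide_eq_false_iff_not] at h1 h2
        generalize c (z + x i) = a at h1
        generalize c (z + x j) = b at h2
        fin_cases a <;> fin_cases b <;> simp_all
      · rw [decide_eq_true_iff] at h1 h2
        rw [h1, h2]

end Pool.Agent.H544R3.SC
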